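import Pool.Agent.X104.CB.PH

/-!
The center foliation: the fourfold is homeomorphic to `T⁶ × (elliptic curve)` and the center bundle
is tangent to the curves `{t} × (elliptic curve)`.
-/

set_option autoImplicit false
set_option linter.unusedSectionVars false
set_option linter.unusedVariables false

noncomputable section

open Filter Topology Set TopologicalSpace
open scoped Manifold ContDiff ComplexConjugate

namespace Pool.Agent.X104.CB

open Pool.Agent.W711.KC

/-- the six-dimensional torus -/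
abbrev TT : Type := QQ GT
/-- the elliptic curve -/
abbrev BB : Type := QQ GB

def qT : C3 → TT := qq (Homeomorph.refl C3) LT
def qB : ℂ → BB := qq (Homeomorph.refl ℂ) LB
def qM : ℂ × C3 → MM := qq Ps LL

theorem qT_surj : Function.Surjective qT := qq_surj _ _
theorem qB_surj : Function.Surjective qB := qq_surj _ _
theorem qM_surj : Function.Surjective qM := qq_surj _ _

def hfun (x : TT × BB) : MM :=
  qM (Function.surjInv qB_surj x.2, Function.surjInv qT_surj x.1)

theorem hfun_eq (y : C3) (z : ℂ) : hfun (qT y, qB z) = qM (z, y) := by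
  unfold hfun qM
  rw [qq_eq_iff, AddSubgroup.mem_prod]
  have h1 := Function.surjInv_eq qB_surj (qB z)
  have h2 := Function.surjInv_eq qT_surj (qT y)
  exact ⟨(qq_eq_iff (Homeomorph.refl ℂ) LB).mp h1, (qq_eq_iff (Homeomorph.refl C3) LT).mp h2⟩

theorem hfun_cont : Continuous hfun := by
  have h1 : IsOpenQuotientMap (Prod.map qT qB) :=
    (qq_quot (Homeomorph.refl C3) LT).prodMap (qq_quot (Homeomorph.refl ℂ) LB)
  rw [h1.isQuotientMap.continuous_iff]
  have h2 : hfun ∘ Prod.map qT qB = fun x : C3 × ℂ => qM (x.2, x.1) := by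
    funext x
    exact hfun_eq x.1 x.2
  rw [h2]
  exact (qq_cont Ps LL).comp (continuous_snd.prodMk continuous_fst)

theorem hfun_bij : Function.Bijective hfun := by
  constructor
  · rintro ⟨t, b⟩ ⟨t', b'⟩ h
    obtain ⟨y, rfl⟩ := qT_surj t
    obtain ⟨z, rfl⟩ := qB_surj b
    obtain ⟨y', rfl⟩ := qT_surj t'
    obtain ⟨z', rfl⟩ := qB_surj b'
    rw [hfun_eq, hfun_eq] at h
    have h1 := (qq_eq_iff Ps LL).mp h
    rw [AddSubgroup.mem_prod] at h1
    exact Prod.ext ((qq_eq_iff (Homeomorph.refl C3) LT).mpr h1.2)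
      ((qq_eq_iff (Homeomorph.refl ℂ) LB).mpr h1.1)
  · intro m
    obtain ⟨⟨z, y⟩, rfl⟩ := qM_surj m
    exact ⟨(qT y, qB z), hfun_eq y z⟩

instance : CompactSpace TT := qq_compact (Homeomorph.refl C3) LT
instance : CompactSpace BB := qq_compact (Homeomorph.refl ℂ) LB
instance : CompactSpace MM := qq_compact Ps LL
instance : ConnectedSpace TT := qq_connected (Homeomorph.refl C3) LT
instance : ConnectedSpace BB := qq_connected (Homeomorph.refl ℂ) LB
instance : ConnectedSpace MM := qq_connected Ps LL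

def hh : TT × BB ≃ₜ MM :=
  Continuous.homeoOfEquivCompactToT2 (f := Equiv.ofBijective hfun hfun_bij) hfun_cont

theorem hh_apply (x : TT × BB) : hh x = hfun x := rfl

/-- the holomorphic sections -/
theorem sec_deriv (y : C3) (z : ℂ) : HasDerivAt (fun z : ℂ => Ps (z, y))
    (fc 0 (Ps (z, y))) z := by
  have h0 := (s0_diff z).hasDerivAt
  have h1 := (s1_diff z).hasDerivAt
  have hW := Ps.symm_apply_apply (z, y)
  rw [Ps_symm_apply] at hW
  have w1 : W1 (Ps (z, y)) = y.1 := congrArg (fun v : ℂ × C3 => v.2.1) hW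
  have w2 : W2 (Ps (z, y)) = y.2.1 := congrArg (fun v : ℂ × C3 => v.2.2.1) hW
  have e : fc 0 (Ps (z, y)) = (1, deriv s0 z * y.2.1 - deriv s1 z * y.1,
      deriv s0 z * conj y.1 + deriv s1 z * conj y.2.1, 0) := by
    show (1, A4 (Ps (z, y)), B4 (Ps (z, y)), 0) = _
    unfold A4 B4
    rw [w1, w2]; rfl
  rw [e]
  have c2 := (h0.mul_const y.2.1).fun_sub (h1.mul_const y.1)
  have c3 := (h0.mul_const (conj y.1)).fun_add (h1.mul_const (conj y.2.1))
  exact (hasDerivAt_id z).prodMk (c2.prodMk (c3.prodMk (hasDerivAt_const z y.2.2)))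

theorem leaf_hasMFDeriv (t : TT) (b : BB) : ∃ D : ℂ →L[ℂ] C4,
    HasMFDerivAt 𝓘(ℂ, ℂ) 𝓘(ℂ, C4) (fun b => hh (t, b)) b D ∧
      LinearMap.range D.toLinearMap = EcM (hh (t, b)) := by
  obtain ⟨y, rfl⟩ := qT_surj t
  set φ : BB → MM := fun b => hh (qT y, b) with hφ
  set z₀ : ℂ := chartAt ℂ b b with hz₀
  set F : ℂ → C4 := fun z => Ps (z, y) with hF
  have hb : qB z₀ = b := pr_chart_self b
  have hφq : ∀ z, φ (qB z) = pr GM ⟨F z, trivial⟩ := fun z => hfun_eq y z
  set m : MM := φ b with hm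
  set e := chartAt C4 m with he
  have hmF : pr GM ⟨F z₀, trivial⟩ = m := by rw [← hφq, hb]
  have hsrc : pr GM ⟨F z₀, trivial⟩ ∈ e.source := by rw [hmF]; exact mem_chart_source C4 m
  obtain ⟨γ, hγ, g1, g2⟩ := local_pr' (chart_mem_atlas C4 m) ⟨F z₀, trivial⟩ hsrc
  have hFd := sec_deriv y z₀
  have hFc : ContinuousAt F z₀ := hFd.continuousAt
  have hφc : Continuous φ := hh.continuous.comp (Continuous.prodMk_right _)
  -- the map in the charts
  have hloc : (fun z => e (φ ((chartAt ℂ b).symm z))) =ᶠ[𝓝 z₀] fun z => ex γ (F z) := by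
    have h1 : ∀ᶠ z in 𝓝 z₀, ∀ hz : F z ∈ (⊤ : Opens C4), e (pr GM ⟨F z, hz⟩) = ex γ (F z) :=
      hFc.eventually g2
    have h2 : ∀ᶠ z in 𝓝 z₀, z ∈ (chartAt ℂ b).target :=
      (chartAt ℂ b).open_target.mem_nhds ((chartAt ℂ b).map_source (mem_chart_source ℂ b))
    filter_upwards [h1, h2] with z hz1 hz2
    have h3 : (chartAt ℂ b).symm z = qB z := atlas_symm (chart_mem_atlas ℂ b) hz2
    rw [h3, hφq]
    exact hz1 trivial
  set G : C4 →L[ℂ] C4 := fderiv ℂ (ex γ) (F z₀) with hG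
  set D : ℂ →L[ℂ] C4 := G.comp (ContinuousLinearMap.toSpanSingleton ℂ (fc 0 (F z₀))) with hD
  have hγd : HasFDerivAt (ex (γ : (⊤ : Opens C4) → (⊤ : Opens C4))) G (F z₀) :=
    (((HolGroup.hol γ hγ).contDiffAt ((⊤ : Opens C4).isOpen.mem_nhds trivial)).differentiableAt
      (by simp)).hasFDerivAt
  have hcomp : HasFDerivAt (fun z => ex γ (F z)) D z₀ := hγd.comp z₀ hFd.hasFDerivAt
  refine ⟨D, ⟨hφc.continuousAt, ?_⟩, ?_⟩
  · apply HasFDerivAt.hasFDerivWithinAt
    have h6 : HasFDerivAt (writtenInExtChartAt 𝓘(ℂ, ℂ) 𝓘(ℂ, C4) b φ) D z₀ := by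
      refine hcomp.congr_of_eventuallyEq ?_
      filter_upwards [hloc] with z hz
      simpa using hz
    exact h6
  · obtain ⟨j, -, -, hc⟩ := compat_deck hγ (F z₀)
    have h7 : ex γ (F z₀) = chartAt C4 m m := by
      have : e (pr GM ⟨F z₀, trivial⟩) = e m := by rw [hmF]
      rw [← this]; exact g1
    have h8 := hc.map_Bc
    rw [h7] at h8
    show LinearMap.range D.toLinearMap = Bc (chartAt C4 m m)
    rw [← h8, Bc_eq, Submodule.map_span]
    ext v
    rw [LinearMap.mem_range]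
    constructor
    · rintro ⟨c, rfl⟩
      have : D.toLinearMap c = c • G (fc 0 (F z₀)) := by
        show G (c • fc 0 (F z₀)) = _
        rw [map_smul]
      rw [this]
      exact Submodule.smul_mem _ _ (Submodule.subset_span ⟨_, ⟨0, rfl⟩, rfl⟩)
    · intro hv
      have h9 : (G.toLinearMap '' range fun i => fc i (F z₀)) = {G (fc 0 (F z₀))} := by
        ext w
        constructor
        · rintro ⟨_, ⟨i, rfl⟩, rfl⟩
          fin_cases i
          rfl
        · rintro rfl
          exact ⟨_, ⟨0, rfl⟩, rfl⟩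
      rw [h9, Submodule.mem_span_singleton] at hv
      obtain ⟨c, rfl⟩ := hv
      refine ⟨c, ?_⟩
      show G (c • fc 0 (F z₀)) = _
      rw [map_smul]

theorem leaf_fact (t : TT) (b : BB) :
    MDifferentiableAt 𝓘(ℂ, ℂ) 𝓘(ℂ, C4) (fun b => hh (t, b)) b ∧
      LinearMap.range (mfderiv 𝓘(ℂ, ℂ) 𝓘(ℂ, C4) (fun b => hh (t, b)) b).toLinearMap =
        EcM (hh (t, b)) := by
  obtain ⟨D, hD, hr⟩ := leaf_hasMFDeriv t b
  refine ⟨hD.mdifferentiableAt, ?_⟩
  rw [hD.mfderiv]
  exact hr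

end Pool.Agent.X104.CB
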