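import Pool.Agent.X104.CB.Cub

/-!
The fourfold, its deck transformations, the frames and the automorphism.
-/

set_option autoImplicit false
set_option linter.unusedSectionVars false

noncomputable section

open Filter Topology Set TopologicalSpace
open scoped Manifold ContDiff ComplexConjugate

namespace Pool.Agent.X104.CB

open Pool.Agent.W711.KC

theorem s0_cd : ContDiff ℂ ω s0 := s0_diff.contDiff
theorem s1_cd : ContDiff ℂ ω s1 := s1_diff.contDiff

/-- explicit form of the deck transformations -/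
def dk (e : ℂ → ℂ) (l : ℂ) (k : C3) (p : C4) : C4 :=
  (p.1 + l, e p.1 * (p.2.1 + s0 p.1 * k.2.1 - s1 p.1 * k.1),
    e p.1 * (p.2.2.1 + s0 p.1 * conj k.1 + s1 p.1 * conj k.2.1), p.2.2.2 + k.2.2)

theorem Ps_right (p : C4) : s0 p.1 * W2 p - s1 p.1 * W1 p = p.2.1 ∧
    s0 p.1 * conj (W1 p) + s1 p.1 * conj (W2 p) = p.2.2.1 := by
  have h := Ps.apply_symm_apply p
  rw [Ps_symm_apply, Ps_apply] at h
  exact ⟨congrArg (fun v : C4 => v.2.1) h, congrArg (fun v : C4 => v.2.2.1) h⟩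

theorem deck_eq {e : ℂ → ℂ} {l : ℂ} (he : ∀ z, s0 (z + l) = e z * s0 z ∧ s1 (z + l) = e z * s1 z)
    (k : C3) (p : C4) : Ps (Ps.symm p + (l, k)) = dk e l k p := by
  obtain ⟨h1, h2⟩ := Ps_right p
  rw [Ps_symm_apply, Ps_apply]
  refine Prod.ext rfl (Prod.ext ?_ (Prod.ext ?_ rfl))
  · show s0 (p.1 + l) * (W2 p + k.2.1) - s1 (p.1 + l) * (W1 p + k.1) =
      e p.1 * (p.2.1 + s0 p.1 * k.2.1 - s1 p.1 * k.1)
    rw [(he p.1).1, (he p.1).2]
    linear_combination (e p.1) * h1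
  · show s0 (p.1 + l) * conj (W1 p + k.1) + s1 (p.1 + l) * conj (W2 p + k.2.1) =
      e p.1 * (p.2.2.1 + s0 p.1 * conj k.1 + s1 p.1 * conj k.2.1)
    rw [(he p.1).1, (he p.1).2, map_add, map_add]
    linear_combination (e p.1) * h2

theorem dk_cd {e : ℂ → ℂ} (he : Differentiable ℂ e) (l : ℂ) (k : C3) :
    ContDiff ℂ ω (dk e l k) := by
  have h0 := s0_cd
  have h1 := s1_cd
  have h2 : ContDiff ℂ ω e := he.contDiff
  unfold dk
  fun_prop

/-- the lattice of the fourfold -/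
abbrev LL : AddSubgroup (ℂ × C3) := LB.prod LT

instance : LatHol Ps LL where
  hol := by
    rintro ⟨l, k⟩ hl
    obtain ⟨e, he, he0, h⟩ := LB_le (AddSubgroup.mem_prod.mp hl).1
    have h2 : (fun p : C4 => Ps (Ps.symm p + (l, k))) = dk e l k := by
      funext p; exact deck_eq h k p
    rw [h2]
    exact dk_cd he l k
  fin := by
    intro R
    refine ((lt_finite ThB ThB_inj R).prod (lt_finite ThT ThT_inj R)).subset ?_
    rintro ⟨l, k⟩ ⟨hl, hn⟩
    rw [AddSubgroup.mem_prod] at hl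
    rw [Prod.norm_def, max_le_iff] at hn
    exact ⟨⟨hl.1, hn.1⟩, ⟨hl.2, hn.2⟩⟩
  coc := by
    obtain ⟨R1, h1⟩ := lt_cocompact ThB ThB_surj
    obtain ⟨R2, h2⟩ := lt_cocompact ThT ThT_surj
    refine ⟨max R1 R2, fun x => ?_⟩
    obtain ⟨l, hl, hl'⟩ := h1 x.1
    obtain ⟨k, hk, hk'⟩ := h2 x.2
    refine ⟨(l, k), AddSubgroup.mem_prod.mpr ⟨hl, hk⟩, ?_⟩
    rw [Prod.norm_def]
    exact max_le (hl'.trans (le_max_left _ _)) (hk'.trans (le_max_right _ _))

instance : LatHol (Homeomorph.refl C3) LT where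
  hol := fun l _ => contDiff_id.add contDiff_const
  fin := lt_finite ThT ThT_inj
  coc := lt_cocompact ThT ThT_surj

instance : LatHol (Homeomorph.refl ℂ) LB where
  hol := fun l _ => contDiff_id.add contDiff_const
  fin := lt_finite ThB ThB_inj
  coc := lt_cocompact ThB ThB_surj

/-- the deck group of the fourfold -/
abbrev GM : Subgroup (Equiv.Perm (⊤ : Opens C4)) := CG Ps LL
/-- the deck group of the six-dimensional torus of leaves -/
abbrev GT : Subgroup (Equiv.Perm (⊤ : Opens C3)) := CG (Homeomorph.refl C3) LT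
/-- the deck group of the elliptic curve -/
abbrev GB : Subgroup (Equiv.Perm (⊤ : Opens ℂ)) := CG (Homeomorph.refl ℂ) LB

/-! ### frames -/

def A4 (p : C4) : ℂ := deriv s0 p.1 * W2 p - deriv s1 p.1 * W1 p
def B4 (p : C4) : ℂ := deriv s0 p.1 * conj (W1 p) + deriv s1 p.1 * conj (W2 p)

def o1 (p v : C4) : ℂ := v.2.1 - A4 p * v.1
def o2 (p v : C4) : ℂ := v.2.2.1 - B4 p * v.1

/-- the squared length -/
def gt4 (p v : C4) : ℝ := Complex.normSq v.1 +
  (Complex.normSq (o1 p v) + Complex.normSq (o2 p v)) / nn p.1 + Complex.normSq v.2.2.2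

def Bs (p : C4) : Submodule ℂ C4 where
  carrier := {v | v.1 = 0 ∧ v.2.2.2 = 0}
  add_mem' := by
    rintro u v ⟨h1, h2⟩ ⟨h3, h4⟩
    exact ⟨by simp [h1, h3], by simp [h2, h4]⟩
  zero_mem' := ⟨rfl, rfl⟩
  smul_mem' := by
    rintro c v ⟨h1, h2⟩
    exact ⟨by simp [h1], by simp [h2]⟩

theorem o1_add (p u v : C4) : o1 p (u + v) = o1 p u + o1 p v := by
  simp only [o1, Prod.fst_add, Prod.snd_add]; ring
theorem o2_add (p u v : C4) : o2 p (u + v) = o2 p u + o2 p v := by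
  simp only [o2, Prod.fst_add, Prod.snd_add]; ring
theorem o1_smul (p : C4) (c : ℂ) (v : C4) : o1 p (c • v) = c * o1 p v := by
  simp only [o1, Prod.smul_fst, Prod.smul_snd, smul_eq_mul]; ring
theorem o2_smul (p : C4) (c : ℂ) (v : C4) : o2 p (c • v) = c * o2 p v := by
  simp only [o2, Prod.smul_fst, Prod.smul_snd, smul_eq_mul]; ring

def Bc (p : C4) : Submodule ℂ C4 where
  carrier := {v | o1 p v = 0 ∧ o2 p v = 0 ∧ v.2.2.2 = 0}
  add_mem' := by
    rintro u v ⟨h1, h2, h5⟩ ⟨h3, h4, h6⟩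
    exact ⟨by rw [o1_add, h1, h3, add_zero], by rw [o2_add, h2, h4, add_zero], by simp [h5, h6]⟩
  zero_mem' := ⟨by simp [o1], by simp [o2], rfl⟩
  smul_mem' := by
    rintro c v ⟨h1, h2, h3⟩
    exact ⟨by rw [o1_smul, h1, mul_zero], by rw [o2_smul, h2, mul_zero], by simp [h3]⟩

def Bu (p : C4) : Submodule ℂ C4 where
  carrier := {v | v.1 = 0 ∧ o1 p v = 0 ∧ o2 p v = 0}
  add_mem' := by
    rintro u v ⟨h1, h2, h5⟩ ⟨h3, h4, h6⟩
    exact ⟨by simp [h1, h3], by rw [o1_add, h2, h4, add_zero], by rw [o2_add, h5, h6, add_zero]⟩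
  zero_mem' := ⟨rfl, by simp [o1], by simp [o2]⟩
  smul_mem' := by
    rintro c v ⟨h1, h2, h3⟩
    exact ⟨by simp [h1], by rw [o1_smul, h2, mul_zero], by rw [o2_smul, h3, mul_zero]⟩

theorem mem_Bs {p v : C4} : v ∈ Bs p ↔ v.1 = 0 ∧ v.2.2.2 = 0 := Iff.rfl
theorem mem_Bc {p v : C4} : v ∈ Bc p ↔ o1 p v = 0 ∧ o2 p v = 0 ∧ v.2.2.2 = 0 := Iff.rfl
theorem mem_Bu {p v : C4} : v ∈ Bu p ↔ v.1 = 0 ∧ o1 p v = 0 ∧ o2 p v = 0 := Iff.rfl

/-- frames -/
def fs : Fin 2 → C4 → C4 := ![fun _ => (0, 1, 0, 0), fun _ => (0, 0, 1, 0)]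
def fc : Fin 1 → C4 → C4 := ![fun p => (1, A4 p, B4 p, 0)]
def fu : Fin 1 → C4 → C4 := ![fun _ => (0, 0, 0, 1)]

theorem Bs_eq (p : C4) : Bs p = Submodule.span ℂ (range fun i => fs i p) := by
  apply le_antisymm
  · rintro v ⟨h1, h2⟩
    have : v = v.2.1 • fs 0 p + v.2.2.1 • fs 1 p := by
      obtain ⟨a, b, c, d⟩ := v
      simp only at h1 h2
      simp [fs, h1, h2]
    rw [this]
    exact Submodule.add_mem _ (Submodule.smul_mem _ _ (Submodule.subset_span ⟨0, rfl⟩))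
      (Submodule.smul_mem _ _ (Submodule.subset_span ⟨1, rfl⟩))
  · rw [Submodule.span_le]
    rintro _ ⟨i, rfl⟩
    fin_cases i <;> exact ⟨rfl, rfl⟩

theorem Bc_eq (p : C4) : Bc p = Submodule.span ℂ (range fun i => fc i p) := by
  apply le_antisymm
  · rintro v ⟨h1, h2, h3⟩
    have : v = v.1 • fc 0 p := by
      obtain ⟨a, b, c, d⟩ := v
      simp only [o1, o2] at h1 h2 h3
      simp only [fc, Matrix.cons_val_zero, Prod.smul_mk, smul_eq_mul, mul_one, mul_zero,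
        Prod.mk.injEq, true_and]
      exact ⟨by linear_combination h1, by linear_combination h2, h3⟩
    rw [this]
    exact Submodule.smul_mem _ _ (Submodule.subset_span ⟨0, rfl⟩)
  · rw [Submodule.span_le]
    rintro _ ⟨i, rfl⟩
    fin_cases i
    exact ⟨by simp [fc, o1], by simp [fc, o2], rfl⟩

theorem Bu_eq (p : C4) : Bu p = Submodule.span ℂ (range fun i => fu i p) := by
  apply le_antisymm
  · rintro v ⟨h1, h2, h3⟩
    have : v = v.2.2.2 • fu 0 p := by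
      obtain ⟨a, b, c, d⟩ := v
      simp only [o1, o2] at h1 h2 h3
      subst h1
      simp only [mul_zero, sub_zero] at h2 h3
      simp [fu, h2, h3]
    rw [this]
    exact Submodule.smul_mem _ _ (Submodule.subset_span ⟨0, rfl⟩)
  · rw [Submodule.span_le]
    rintro _ ⟨i, rfl⟩
    fin_cases i
    exact ⟨rfl, by simp [fu, o1], by simp [fu, o2]⟩

/-- a linear map which is diagonal with respect to the two frames. -/
structure Compat (D : C4 →L[ℂ] C4) (p p' : C4) (a b c d : ℂ) : Prop where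
  ha : a ≠ 0
  hb : b ≠ 0
  hc : c ≠ 0
  hd : d ≠ 0
  h1 : ∀ v, (D v).1 = a * v.1
  h2 : ∀ v, o1 p' (D v) = b * o1 p v
  h3 : ∀ v, o2 p' (D v) = c * o2 p v
  h4 : ∀ v, (D v).2.2.2 = d * v.2.2.2

namespace Compat

variable {D : C4 →L[ℂ] C4} {p p' : C4} {a b c d : ℂ} (h : Compat D p p' a b c d)
include h

theorem injective : Function.Injective D := by
  rw [injective_iff_map_eq_zero]
  intro v hv
  have e1 := h.h1 v
  have e2 := h.h2 v
  have e3 := h.h3 v
  have e4 := h.h4 v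
  rw [hv] at e1 e2 e3 e4
  have k1 : v.1 = 0 := by simpa [h.ha] using e1.symm
  have k4 : v.2.2.2 = 0 := by simpa [h.hd] using e4.symm
  have k2 : o1 p v = 0 := by simpa [h.hb, o1] using e2.symm
  have k3 : o2 p v = 0 := by simpa [h.hc, o2] using e3.symm
  unfold o1 at k2
  unfold o2 at k3
  rw [k1, mul_zero, sub_zero] at k2 k3
  exact Prod.ext k1 (Prod.ext k2 (Prod.ext k3 k4))

theorem surjective : Function.Surjective D :=
  (LinearMap.injective_iff_surjective (f := D.toLinearMap)).1 h.injective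

theorem map_Bs : (Bs p).map D.toLinearMap = Bs p' := by
  ext u
  rw [Submodule.mem_map]
  constructor
  · rintro ⟨v, ⟨e1, e2⟩, rfl⟩
    exact ⟨(h.h1 v).trans (by rw [e1, mul_zero]), (h.h4 v).trans (by rw [e2, mul_zero])⟩
  · rintro ⟨e1, e2⟩
    obtain ⟨v, rfl⟩ := h.surjective u
    rw [h.h1] at e1
    rw [h.h4] at e2
    exact ⟨v, ⟨(mul_eq_zero.1 e1).resolve_left h.ha, (mul_eq_zero.1 e2).resolve_left h.hd⟩, rfl⟩

theorem map_Bc : (Bc p).map D.toLinearMap = Bc p' := by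
  ext u
  rw [Submodule.mem_map]
  constructor
  · rintro ⟨v, ⟨e1, e2, e3⟩, rfl⟩
    exact ⟨(h.h2 v).trans (by rw [e1, mul_zero]), (h.h3 v).trans (by rw [e2, mul_zero]),
      (h.h4 v).trans (by rw [e3, mul_zero])⟩
  · rintro ⟨e1, e2, e3⟩
    obtain ⟨v, rfl⟩ := h.surjective u
    rw [h.h2] at e1
    rw [h.h3] at e2
    rw [h.h4] at e3
    exact ⟨v, ⟨(mul_eq_zero.1 e1).resolve_left h.hb, (mul_eq_zero.1 e2).resolve_left h.hc,
      (mul_eq_zero.1 e3).resolve_left h.hd⟩, rfl⟩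

theorem map_Bu : (Bu p).map D.toLinearMap = Bu p' := by
  ext u
  rw [Submodule.mem_map]
  constructor
  · rintro ⟨v, ⟨e1, e2, e3⟩, rfl⟩
    exact ⟨(h.h1 v).trans (by rw [e1, mul_zero]), (h.h2 v).trans (by rw [e2, mul_zero]),
      (h.h3 v).trans (by rw [e3, mul_zero])⟩
  · rintro ⟨e1, e2, e3⟩
    obtain ⟨v, rfl⟩ := h.surjective u
    rw [h.h1] at e1
    rw [h.h2] at e2
    rw [h.h3] at e3
    exact ⟨v, ⟨(mul_eq_zero.1 e1).resolve_left h.ha, (mul_eq_zero.1 e2).resolve_left h.hb,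
      (mul_eq_zero.1 e3).resolve_left h.hc⟩, rfl⟩

end Compat

/-! ### the derivative of the deck transformations -/

theorem dk_line {e : ℂ → ℂ} (he : Differentiable ℂ e) (l : ℂ) (k : C3) (p v : C4) :
    fderiv ℂ (dk e l k) p v = (v.1,
      deriv e p.1 * v.1 * (p.2.1 + s0 p.1 * k.2.1 - s1 p.1 * k.1) +
        e p.1 * (v.2.1 + deriv s0 p.1 * v.1 * k.2.1 - deriv s1 p.1 * v.1 * k.1),
      deriv e p.1 * v.1 * (p.2.2.1 + s0 p.1 * conj k.1 + s1 p.1 * conj k.2.1) +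
        e p.1 * (v.2.2.1 + deriv s0 p.1 * v.1 * conj k.1 + deriv s1 p.1 * v.1 * conj k.2.1),
      v.2.2.2) := by
  have hF : HasFDerivAt (dk e l k) (fderiv ℂ (dk e l k) p) p :=
    (((dk_cd he l k).differentiable (by simp)) p).hasFDerivAt
  have hline : HasDerivAt (fun t : ℂ => p + t • v) v 0 := by
    have := ((hasDerivAt_id (0 : ℂ)).smul_const v).const_add p
    simpa using this
  have hF' : HasFDerivAt (dk e l k) (fderiv ℂ (dk e l k) p) (p + (0 : ℂ) • v) := by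
    rw [zero_smul, add_zero]; exact hF
  have h1 := hF'.comp_hasDerivAt (0 : ℂ) hline
  refine h1.unique ?_
  have hz : HasDerivAt (fun t : ℂ => (p + t • v).1) v.1 0 := hline.fst
  have ha : HasDerivAt (fun t : ℂ => (p + t • v).2.1) v.2.1 0 := hline.snd.fst
  have hb : HasDerivAt (fun t : ℂ => (p + t • v).2.2.1) v.2.2.1 0 := hline.snd.snd.fst
  have hy : HasDerivAt (fun t : ℂ => (p + t • v).2.2.2) v.2.2.2 0 := hline.snd.snd.snd
  have hp0 : (p + (0 : ℂ) • v) = p := by rw [zero_smul, add_zero]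
  have hcomp : ∀ {g : ℂ → ℂ}, Differentiable ℂ g →
      HasDerivAt (fun t : ℂ => g (p + t • v).1) (deriv g p.1 * v.1) 0 := by
    intro g hg
    have h2 : HasDerivAt g (deriv g p.1) ((p + (0 : ℂ) • v).1) := by
      rw [hp0]; exact (hg p.1).hasDerivAt
    exact h2.comp (0 : ℂ) hz
  have he1 := hcomp he
  have h01 := hcomp s0_diff
  have h11 := hcomp s1_diff
  have c2 := he1.fun_mul ((ha.fun_add (h01.mul_const k.2.1)).fun_sub (h11.mul_const k.1))
  have c3 := he1.fun_mul ((hb.fun_add (h01.mul_const (conj k.1))).fun_add (h11.mul_const (conj k.2.1)))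
  have hall := (hz.add_const l).prodMk (c2.prodMk (c3.prodMk (hy.add_const k.2.2)))
  simp only [zero_smul, add_zero] at hall
  exact hall

theorem W_deck (l : ℂ) (k : C3) (p : C4) :
    W1 (Ps (Ps.symm p + (l, k))) = W1 p + k.1 ∧ W2 (Ps (Ps.symm p + (l, k))) = W2 p + k.2.1 := by
  have h := Ps.symm_apply_apply (Ps.symm p + (l, k))
  rw [Ps_symm_apply, Ps_symm_apply] at h
  exact ⟨congrArg (fun v : ℂ × C3 => v.2.1) h, congrArg (fun v : ℂ × C3 => v.2.2.1) h⟩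

theorem deriv_shift {s e : ℂ → ℂ} (hs : Differentiable ℂ s) (he : Differentiable ℂ e) {l : ℂ}
    (h : ∀ z, s (z + l) = e z * s z) (z : ℂ) :
    deriv s (z + l) = deriv e z * s z + e z * deriv s z := by
  have h1 : HasDerivAt (fun z => s (z + l)) (deriv s (z + l)) z := by
    have := (hs (z + l)).hasDerivAt.comp_add_const z l
    exact this
  have h2 : HasDerivAt (fun z => e z * s z) (deriv e z * s z + e z * deriv s z) z :=
    (he z).hasDerivAt.mul (hs z).hasDerivAt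
  have h3 : (fun z => s (z + l)) = fun z => e z * s z := funext h
  rw [h3] at h1
  exact h1.unique h2

theorem compat_deck {γ : Equiv.Perm (⊤ : Opens C4)} (hγ : γ ∈ GM) (p : C4) :
    ∃ j : ℂ, j ≠ 0 ∧ nn (ex γ p).1 = Complex.normSq j * nn p.1 ∧
      Compat (fderiv ℂ (ex γ) p) p (ex γ p) 1 j j 1 := by
  obtain ⟨⟨l, k⟩, hl, rfl⟩ := hγ
  obtain ⟨e, he, he0, h⟩ := LB_le (AddSubgroup.mem_prod.mp hl).1
  have hex : ex (tr Ps (l, k) : (⊤ : Opens C4) → (⊤ : Opens C4)) = dk e l k := by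
    rw [ex_tr]; funext q; exact deck_eq h k q
  rw [hex]
  have hd := fun v => dk_line he l k p v
  obtain ⟨hw1, hw2⟩ := W_deck l k p
  rw [deck_eq h k p] at hw1 hw2
  obtain ⟨r1, r2⟩ := Ps_right p
  have d0 := deriv_shift s0_diff he (fun z => (h z).1) p.1
  have d1 := deriv_shift s1_diff he (fun z => (h z).2) p.1
  have hz : (dk e l k p).1 = p.1 + l := rfl
  refine ⟨e p.1, he0 _, ?_, one_ne_zero, he0 _, he0 _, one_ne_zero, fun v => ?_, fun v => ?_,
    fun v => ?_, fun v => ?_⟩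
  · rw [hz, nn, (h p.1).1, (h p.1).2, map_mul, map_mul, nn]; ring
  · rw [hd v, one_mul]
  · rw [hd v]
    unfold o1 A4
    rw [hw1, hw2, hz, d0, d1]
    simp only []
    linear_combination (-(deriv e p.1) * v.1) * r1
  · rw [hd v]
    unfold o2 B4
    rw [hw1, hw2, hz, d0, d1, map_add, map_add]
    simp only []
    linear_combination (-(deriv e p.1) * v.1) * r2
  · rw [hd v, one_mul]

/-! ### the automorphism -/

def Fl (a b c : ℂ) : C4 →L[ℂ] C4 :=
  (ContinuousLinearMap.fst ℂ ℂ C3).prod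
    (((a • ContinuousLinearMap.fst ℂ ℂ (ℂ × ℂ)).comp (ContinuousLinearMap.snd ℂ ℂ C3)).prod
      (((b • ContinuousLinearMap.fst ℂ ℂ ℂ).comp ((ContinuousLinearMap.snd ℂ ℂ (ℂ × ℂ)).comp
        (ContinuousLinearMap.snd ℂ ℂ C3))).prod
      ((c • ContinuousLinearMap.snd ℂ ℂ ℂ).comp ((ContinuousLinearMap.snd ℂ ℂ (ℂ × ℂ)).comp
        (ContinuousLinearMap.snd ℂ ℂ C3)))))

theorem Fl_apply (a b c : ℂ) (p : C4) :
    Fl a b c p = (p.1, a * p.2.1, b * p.2.2.1, c * p.2.2.2) := rfl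

def Fs (a b c : ℂ) (p : (⊤ : Opens C4)) : (⊤ : Opens C4) := ⟨Fl a b c p, trivial⟩

theorem ex_Fs (a b c : ℂ) : ex (Fs a b c) = Fl a b c := by
  funext p
  exact ex_apply (Fs a b c) ⟨p, trivial⟩

theorem Fl_Ps (m y : ℂ) (v : ℂ × C3) : Fl m (conj m) y (Ps v) =
    Ps (v.1, m * v.2.1, m * v.2.2.1, y * v.2.2.2) := by
  rw [Fl_apply, Ps_apply, Ps_apply]
  refine Prod.ext rfl (Prod.ext ?_ (Prod.ext ?_ rfl))
  · simp only []; ring
  · simp only [map_mul]; ring

theorem norm_Fs (m y : ℂ) (hL : ∀ v ∈ LT, ((m * v.1, m * v.2.1, y * v.2.2) : C3) ∈ LT) :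
    Norm GM (Fs m (conj m) y) where
  hol := by
    rw [ex_Fs]
    exact (Fl m (conj m) y).contDiff.contDiffOn
  norm := by
    rintro _ ⟨⟨l, k⟩, hl, rfl⟩
    rw [AddSubgroup.mem_prod] at hl
    refine ⟨tr Ps (l, (m * k.1, m * k.2.1, y * k.2.2)),
      ⟨(l, (m * k.1, m * k.2.1, y * k.2.2)), AddSubgroup.mem_prod.mpr ⟨hl.1, hL k hl.2⟩, rfl⟩,
      fun x => ?_⟩
    apply Subtype.ext
    show Fl m (conj m) y (tr Ps (l, k) x : C4) = _
    rw [tr_coe, tr_coe, Fl_Ps]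
    congr 1
    have h1 : ((Fs m (conj m) y x : (⊤ : Opens C4)) : C4) = Fl m (conj m) y x := rfl
    have h2 : Fl m (conj m) y (x : C4) = Ps ((Ps.symm (x : C4)).1, m * (Ps.symm (x : C4)).2.1,
        m * (Ps.symm (x : C4)).2.2.1, y * (Ps.symm (x : C4)).2.2.2) := by
      rw [← Fl_Ps, Ps.apply_symm_apply]
    rw [h1, h2, Ps.symm_apply_apply]
    refine Prod.ext rfl (Prod.ext ?_ (Prod.ext ?_ ?_))
    · simp only [Prod.fst_add, Prod.snd_add]; ring
    · simp only [Prod.fst_add, Prod.snd_add]; ring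
    · simp only [Prod.fst_add, Prod.snd_add]; ring

theorem normF : Norm GM (Fs mu (conj mu) ep) := norm_Fs mu ep fun v hv => Am_mem hv
theorem normFi : Norm GM (Fs mu⁻¹ (conj mu⁻¹) (ep : ℂ)⁻¹) := norm_Fs _ _ fun v hv => Ai_mem hv

theorem epC_ne : (ep : ℂ) ≠ 0 := by exact_mod_cast ep_ne

theorem Fs_inv1 (x : (⊤ : Opens C4)) :
    Fs mu⁻¹ (conj mu⁻¹) (ep : ℂ)⁻¹ (Fs mu (conj mu) ep x) = x := by
  apply Subtype.ext
  show Fl _ _ _ (Fl _ _ _ (x : C4)) = _
  rw [Fl_apply, Fl_apply]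
  have h1 := mu_ne
  have h2 := epC_ne
  have h3 : conj mu ≠ 0 := (map_ne_zero _).mpr h1
  refine Prod.ext rfl (Prod.ext ?_ (Prod.ext ?_ ?_))
  · simp only []; field_simp
  · simp only [map_inv₀]; field_simp
  · simp only []; field_simp

theorem Fs_inv2 (x : (⊤ : Opens C4)) :
    Fs mu (conj mu) ep (Fs mu⁻¹ (conj mu⁻¹) (ep : ℂ)⁻¹ x) = x := by
  apply Subtype.ext
  show Fl _ _ _ (Fl _ _ _ (x : C4)) = _
  rw [Fl_apply, Fl_apply]
  have h1 := mu_ne
  have h2 := epC_ne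
  have h3 : conj mu ≠ 0 := (map_ne_zero _).mpr h1
  refine Prod.ext rfl (Prod.ext ?_ (Prod.ext ?_ ?_))
  · simp only []; field_simp
  · simp only [map_inv₀]; field_simp
  · simp only []; field_simp

/-- the fourfold -/
abbrev MM : Type := QQ GM

/-- the biholomorphism -/
def fM : MM → MM := desc _ normF
def fMi : MM → MM := desc _ normFi

def fdiff : Diffeomorph 𝓘(ℂ, C4) 𝓘(ℂ, C4) MM MM ω where
  toFun := fM
  invFun := fMi
  left_inv q := by
    obtain ⟨x, rfl⟩ := pr_surj GM q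
    show fMi (fM (pr GM x)) = pr GM x
    rw [fM, desc_pr, fMi, desc_pr, Fs_inv1]
  right_inv q := by
    obtain ⟨x, rfl⟩ := pr_surj GM q
    show fM (fMi (pr GM x)) = pr GM x
    rw [fMi, desc_pr, fM, desc_pr, Fs_inv2]
  contMDiff_toFun := contMDiff_desc _ normF
  contMDiff_invFun := contMDiff_desc _ normFi

theorem W_F (m y : ℂ) (p : C4) : W1 (Fl m (conj m) y p) = m * W1 p ∧
    W2 (Fl m (conj m) y p) = m * W2 p := by
  have h2 : Fl m (conj m) y p = Ps ((Ps.symm p).1, m * (Ps.symm p).2.1,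
      m * (Ps.symm p).2.2.1, y * (Ps.symm p).2.2.2) := by
    rw [← Fl_Ps, Ps.apply_symm_apply]
  have h3 := Ps.symm_apply_apply ((Ps.symm p).1, m * (Ps.symm p).2.1,
      m * (Ps.symm p).2.2.1, y * (Ps.symm p).2.2.2)
  rw [← h2, Ps_symm_apply, Ps_symm_apply] at h3
  exact ⟨congrArg (fun v : ℂ × C3 => v.2.1) h3, congrArg (fun v : ℂ × C3 => v.2.2.1) h3⟩

theorem compat_f (q : MM) : ∃ j : ℂ, j ≠ 0 ∧
    nn (chartAt C4 (fM q) (fM q)).1 = Complex.normSq j * nn (chartAt C4 q q).1 ∧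
    Compat (mfderiv 𝓘(ℂ, C4) 𝓘(ℂ, C4) fM q) (chartAt C4 q q)
      (chartAt C4 (fM q) (fM q)) 1 (j * mu) (j * conj mu) ep := by
  obtain ⟨γ, hγ, h1, h2⟩ := mfderiv_desc _ normF q
  rw [ex_Fs] at h1 h2
  obtain ⟨j, hj, him, hc⟩ := compat_deck hγ (Fl mu (conj mu) ep (chartAt C4 q q))
  have h3 : fderiv ℂ (Fl mu (conj mu) ep) (chartAt C4 q q) = Fl mu (conj mu) ep :=
    (Fl mu (conj mu) ep).fderiv
  rw [h3] at h2
  refine ⟨j, hj, ?_, ?_⟩
  · change nn (chartAt C4 (desc _ normF q) (desc _ normF q)).1 = _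
    rw [← h1, him]
    rfl
  · change Compat (mfderiv 𝓘(ℂ, C4) 𝓘(ℂ, C4) (desc _ normF) q : C4 →L[ℂ] C4) (chartAt C4 q q)
      (chartAt C4 (desc _ normF q) (desc _ normF q)) _ _ _ _
    rw [h2, ← h1]
    set p := chartAt C4 q q with hp
    obtain ⟨w1, w2⟩ := W_F mu ep p
    have hz : (Fl mu (conj mu) ep p).1 = p.1 := rfl
    have lin1 : ∀ v : C4, o1 (Fl mu (conj mu) ep p) (Fl mu (conj mu) ep v) = mu * o1 p v := by
      intro v
      unfold o1 A4
      rw [w1, w2, hz, Fl_apply]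
      simp only []
      ring
    have lin2 : ∀ v : C4, o2 (Fl mu (conj mu) ep p) (Fl mu (conj mu) ep v) =
        conj mu * o2 p v := by
      intro v
      unfold o2 B4
      rw [w1, w2, hz, Fl_apply, map_mul, map_mul]
      simp only []
      ring
    refine ⟨one_ne_zero, mul_ne_zero hj mu_ne, mul_ne_zero hj ((map_ne_zero _).mpr mu_ne),
      epC_ne, fun v => ?_, fun v => ?_, fun v => ?_, fun v => ?_⟩
    · rw [ContinuousLinearMap.comp_apply, hc.h1]
      rfl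
    · rw [ContinuousLinearMap.comp_apply, hc.h2, lin1]
      ring
    · rw [ContinuousLinearMap.comp_apply, hc.h3, lin2]
      ring
    · rw [ContinuousLinearMap.comp_apply, hc.h4, one_mul]
      rfl

end Pool.Agent.X104.CB
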