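import Mathlib

/-!
Two entire functions without common zeros and with the same factors of automorphy for the lattice
`ℤ + 2iℤ`: theta functions.
-/

set_option autoImplicit false

noncomputable section

open Filter Topology Set Complex
open scoped Real

namespace Pool.Agent.X104.CB

/-- Jacobi theta function with `τ = i`. -/
def th (z : ℂ) : ℂ := jacobiTheta₂ z I

theorem I_im_pos : 0 < (I : ℂ).im := by simp

theorem th_diff : Differentiable ℂ th := fun z => differentiableAt_jacobiTheta₂_fst z I_im_pos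

theorem th_add_one (z : ℂ) : th (z + 1) = th z := jacobiTheta₂_add_left z I

theorem th_add_I (z : ℂ) : th (z + I) = cexp (-π * I * (I + 2 * z)) * th z :=
  jacobiTheta₂_add_left' z I

theorem th_zero_I (z : ℂ) : th (z + I) = 0 ↔ th z = 0 := by
  rw [th_add_I, mul_eq_zero]
  exact ⟨fun h => h.resolve_left (exp_ne_zero _), Or.inr⟩

theorem th_zero_shift (k : ℤ) (z : ℂ) : th (z + k * I) = 0 ↔ th z = 0 := by
  induction k using Int.induction_on with
  | zero => simp
  | succ i ih =>
    rw [← ih, ← th_zero_I (z + (i : ℤ) * I)]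
    have : z + ((i : ℤ) + 1 : ℤ) * I = z + (i : ℤ) * I + I := by push_cast; ring
    rw [this]
  | pred i ih =>
    rw [← ih, ← th_zero_I (z + ((-(i : ℤ) - 1 : ℤ) : ℂ) * I)]
    have : z + ((-(i : ℤ) - 1 : ℤ) : ℂ) * I + I = z + ((-(i : ℤ) : ℤ) : ℂ) * I := by
      push_cast; ring
    rw [this]

theorem term_half (n : ℤ) (z : ℂ) :
    jacobiTheta₂_term n (z + 1 / 2) I = (-1) ^ n * jacobiTheta₂_term n z I := by
  unfold jacobiTheta₂_term
  have h1 : (2 * π * I * n * (z + 1 / 2) + π * I * n ^ 2 * I : ℂ) =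
      n * (π * I) + (2 * π * I * n * z + π * I * n ^ 2 * I) := by ring
  rw [h1, Complex.exp_add, Complex.exp_int_mul, Complex.exp_pi_mul_I]

theorem norm_term_le {z : ℂ} (hz : |z.im| ≤ 1 / 2) {n : ℤ} {k : ℕ} (hk : |(n : ℝ)| = k)
    (h2 : 2 ≤ k) : ‖jacobiTheta₂_term n z I‖ ≤ Real.exp (-π) ^ k := by
  rw [norm_jacobiTheta₂_term, ← Real.exp_nat_mul]
  refine Real.exp_le_exp.mpr ?_
  have hk2 : (2 : ℝ) ≤ k := by exact_mod_cast h2
  have h3 : (n : ℝ) ^ 2 = (k : ℝ) ^ 2 := by rw [← hk, sq_abs]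
  have h4 : -(2 * π * n * z.im) ≤ π * k := by
    have h5 : |(n : ℝ) * z.im| ≤ k * (1 / 2) := by
      rw [abs_mul, hk]; gcongr
    have h6 := neg_abs_le ((n : ℝ) * z.im)
    nlinarith [Real.pi_pos]
  rw [h3]
  simp only [I_im, mul_one]
  nlinarith [Real.pi_pos, mul_nonneg Real.pi_pos.le (mul_nonneg (by linarith : (0 : ℝ) ≤ k)
    (sub_nonneg.mpr hk2))]

theorem exp_neg_pi_lt : Real.exp (-π) < 1 / 4 := by
  rw [Real.exp_neg, inv_lt_comm₀ (Real.exp_pos _) (by norm_num)]
  have h1 := Real.add_one_le_exp π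
  have h2 := Real.pi_gt_three
  have : (1 / 4 : ℝ)⁻¹ = 4 := by norm_num
  rw [this]; linarith

theorem sum_ne_zero_strip {z : ℂ} (hz : |z.im| ≤ 1 / 2) : th z + th (z + 1 / 2) ≠ 0 := by
  set f : ℤ → ℂ := fun n => jacobiTheta₂_term n z I + jacobiTheta₂_term n (z + 1 / 2) I with hf
  have hS : HasSum f (th z + th (z + 1 / 2)) :=
    (hasSum_jacobiTheta₂_term z I_im_pos).add (hasSum_jacobiTheta₂_term (z + 1 / 2) I_im_pos)
  have hf' : ∀ n, f n = (1 + (-1) ^ n) * jacobiTheta₂_term n z I := by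
    intro n
    rw [hf]
    simp only []
    rw [term_half]; ring
  have f0 : f 0 = 2 := by
    rw [hf', jacobiTheta₂_term]; norm_num
  have hg := hS.nat_add_neg
  set g : ℕ → ℂ := fun n => f n + f (-n) with hgdef
  have g0 : g 0 = 4 := by
    rw [hgdef]; simp only [Nat.cast_zero, neg_zero]; rw [f0]; norm_num
  set r : ℝ := Real.exp (-π) with hr
  have hr0 : 0 < r := Real.exp_pos _
  have hr1 : r < 1 / 4 := exp_neg_pi_lt
  have hfn : ∀ (n : ℤ) (k : ℕ), |(n : ℝ)| = k → 1 ≤ k → ‖f n‖ ≤ 2 * r ^ k := by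
    intro n k hk h1
    rw [hf', norm_mul]
    rcases Int.even_or_odd n with he | ho
    · have h2 : 2 ≤ k := by
        by_contra hlt
        have hk1 : k = 1 := by omega
        rw [hk1] at hk
        have h3 : |n| = 1 := by
          have : ((|n| : ℤ) : ℝ) = 1 := by push_cast; exact_mod_cast hk
          exact_mod_cast this
        rcases (abs_eq (by norm_num : (0 : ℤ) ≤ 1)).mp h3 with h | h <;> rw [h] at he <;>
          exact absurd he (by decide)
      rw [he.neg_one_zpow]
      have h4 : ‖(1 + 1 : ℂ)‖ = 2 := by norm_num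
      rw [h4]
      have := norm_term_le hz hk h2
      gcongr
    · rw [ho.neg_one_zpow, add_neg_cancel, norm_zero, zero_mul]
      positivity
  have hgn : ∀ n : ℕ, ‖g (n + 1)‖ ≤ 4 * r ^ (n + 1) := by
    intro n
    have h1 : ‖f ((n + 1 : ℕ) : ℤ)‖ ≤ 2 * r ^ (n + 1) := by
      refine hfn _ _ ?_ (by omega)
      push_cast
      rw [abs_of_nonneg (by positivity)]
    have h2 : ‖f (-((n + 1 : ℕ) : ℤ))‖ ≤ 2 * r ^ (n + 1) := by
      refine hfn _ _ ?_ (by omega)
      push_cast
      rw [abs_neg, abs_of_nonneg (by positivity)]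
    calc ‖g (n + 1)‖ ≤ ‖f ((n + 1 : ℕ) : ℤ)‖ + ‖f (-((n + 1 : ℕ) : ℤ))‖ := norm_add_le _ _
      _ ≤ _ := by linarith
  have hgs : Summable g := hg.summable
  have h1 : ∑' n, g n = g 0 + ∑' n, g (n + 1) := hgs.tsum_eq_zero_add
  rw [hg.tsum_eq, g0, f0] at h1
  have hgeo : HasSum (fun n : ℕ => 4 * r ^ (n + 1)) (4 * (r / (1 - r))) := by
    have h := ((hasSum_geometric_of_lt_one hr0.le (by linarith)).mul_left r).mul_left 4
    have e : (fun n : ℕ => 4 * r ^ (n + 1)) = fun n : ℕ => 4 * (r * r ^ n) := by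
      funext n; ring
    rw [e, div_eq_mul_inv]; exact h
  have h2 : ‖∑' n, g (n + 1)‖ ≤ 4 * (r / (1 - r)) :=
    tsum_of_norm_bounded hgeo hgn
  have h3 : 4 * (r / (1 - r)) < 2 := by
    rw [← mul_div_assoc, div_lt_iff₀ (by linarith)]; linarith
  intro h0
  rw [h0, zero_add] at h1
  have h4 : ∑' n, g (n + 1) = -2 := by linear_combination -h1
  rw [h4] at h2
  norm_num at h2
  linarith

/-- no common zeros -/
theorem th_no_common {z : ℂ} (h0 : th z = 0) (h1 : th (z + 1 / 2) = 0) : False := by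
  set k : ℤ := -round z.im with hk
  have e0 : th (z + k * I) = 0 := (th_zero_shift k z).mpr h0
  have e1 : th (z + k * I + 1 / 2) = 0 := by
    have := (th_zero_shift k (z + 1 / 2)).mpr h1
    rwa [show z + 1 / 2 + k * I = z + k * I + 1 / 2 by ring] at this
  refine sum_ne_zero_strip (z := z + k * I) ?_ (by rw [e0, e1, add_zero])
  have : (z + k * I).im = z.im - round z.im := by
    rw [hk]; simp; ring
  rw [this]
  exact abs_sub_round _

def s0 (z : ℂ) : ℂ := th z
def s1 (z : ℂ) : ℂ := th (z + 1 / 2)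

theorem s0_diff : Differentiable ℂ s0 := th_diff
theorem s1_diff : Differentiable ℂ s1 := th_diff.comp (differentiable_id.add_const _)

theorem s_no_common {z : ℂ} (h0 : s0 z = 0) (h1 : s1 z = 0) : False := th_no_common h0 h1

/-- the periods: `s₀, s₁` have the same factor of automorphy. -/
def PerS : AddSubgroup ℂ where
  carrier := {l | ∃ e : ℂ → ℂ, Differentiable ℂ e ∧ (∀ z, e z ≠ 0) ∧
    ∀ z, s0 (z + l) = e z * s0 z ∧ s1 (z + l) = e z * s1 z}
  zero_mem' := ⟨fun _ => 1, differentiable_const _, fun _ => one_ne_zero, fun z => by simp⟩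
  add_mem' := by
    rintro a b ⟨e, he, he0, h⟩ ⟨e', he', he0', h'⟩
    refine ⟨fun z => e' (z + a) * e z, ?_, fun z => mul_ne_zero (he0' _) (he0 _), fun z => ?_⟩
    · exact (he'.comp (differentiable_id.add_const a)).mul he
    · rw [← add_assoc, (h' (z + a)).1, (h' (z + a)).2, (h z).1, (h z).2]
      exact ⟨by ring, by ring⟩
  neg_mem' := by
    rintro a ⟨e, he, he0, h⟩
    refine ⟨fun z => (e (z - a))⁻¹, ?_, fun z => inv_ne_zero (he0 _), fun z => ?_⟩
    · exact fun z => ((he.comp (differentiable_id.sub_const a)) z).inv (he0 _)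
    · have h1 := (h (z - a)).1
      have h2 := (h (z - a)).2
      rw [sub_add_cancel] at h1 h2
      rw [h1, h2, ← sub_eq_add_neg]
      exact ⟨by field_simp [he0 (z - a)], by field_simp [he0 (z - a)]⟩

theorem one_mem_PerS : (1 : ℂ) ∈ PerS := by
  refine ⟨fun _ => 1, differentiable_const _, fun _ => one_ne_zero, fun z => ?_⟩
  rw [one_mul, one_mul]
  refine ⟨th_add_one z, ?_⟩
  show th (z + 1 + 1 / 2) = th (z + 1 / 2)
  rw [show z + 1 + 1 / 2 = z + 1 / 2 + 1 by ring, th_add_one]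

theorem s0_add_I (z : ℂ) : s0 (z + I) = cexp (-π * I * (I + 2 * z)) * s0 z := th_add_I z

theorem s1_add_I (z : ℂ) : s1 (z + I) = -(cexp (-π * I * (I + 2 * z)) * s1 z) := by
  show th (z + I + 1 / 2) = -(_ * th (z + 1 / 2))
  rw [show z + I + 1 / 2 = z + 1 / 2 + I by ring, th_add_I,
    show -(π : ℂ) * I * (I + 2 * (z + 1 / 2)) = -π * I * (I + 2 * z) + -(π * I) by ring,
    Complex.exp_add, Complex.exp_neg (π * I), Complex.exp_pi_mul_I]
  ring

theorem two_I_mem_PerS : (2 * I : ℂ) ∈ PerS := by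
  refine ⟨fun z => cexp (-π * I * (I + 2 * (z + I))) * cexp (-π * I * (I + 2 * z)), ?_,
    fun z => mul_ne_zero (exp_ne_zero _) (exp_ne_zero _), fun z => ?_⟩
  · fun_prop
  · rw [show z + 2 * I = z + I + I by ring, s0_add_I, s0_add_I, s1_add_I, s1_add_I]
    exact ⟨by ring, by ring⟩

/-- The Wronskian does not vanish identically. -/
theorem exists_wronskian : ∃ z, deriv s0 z * s1 z - deriv s1 z * s0 z ≠ 0 := by
  by_contra hcon
  push Not at hcon
  obtain ⟨z0, hz0⟩ : ∃ z, s0 z ≠ 0 := by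
    by_contra h
    push Not at h
    exact s_no_common (h 0) (by
      have := h (1 / 2)
      show th (0 + 1 / 2) = 0
      rw [zero_add]; exact this)
  obtain ⟨δ, hδ, hball⟩ := Metric.eventually_nhds_iff_ball.mp
    (s0_diff.continuous.continuousAt.eventually_ne hz0)
  set h : ℂ → ℂ := fun z => s1 z / s0 z with hh
  have hd : ∀ z ∈ Metric.ball z0 δ, HasDerivAt h 0 z := by
    intro z hz
    have h1 := (s1_diff z).hasDerivAt.div (s0_diff z).hasDerivAt (hball z hz)
    have h2 : (deriv s1 z * s0 z - s1 z * deriv s0 z) / s0 z ^ 2 = 0 := by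
      have h3 : deriv s1 z * s0 z - s1 z * deriv s0 z = 0 := by
        linear_combination -hcon z
      rw [h3, zero_div]
    rw [h2] at h1
    exact h1
  have hc : ∀ z ∈ Metric.ball z0 δ, h z = h z0 := by
    intro z hz
    refine (Metric.isOpen_ball).is_const_of_deriv_eq_zero
      (convex_ball z0 δ).isPreconnected
      (fun w hw => (hd w hw).differentiableAt.differentiableWithinAt)
      (fun w hw => (hd w hw).deriv) hz (Metric.mem_ball_self hδ)
  set c : ℂ := h z0 with hcdef
  have hloc : s1 =ᶠ[𝓝 z0] fun z => c * s0 z := by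
    filter_upwards [Metric.ball_mem_nhds z0 hδ] with z hz
    have h1 := hc z hz
    have h2 := hball z hz
    rw [← h1, hh]
    field_simp
  have hglob : s1 = fun z => c * s0 z := by
    have a1 : AnalyticOnNhd ℂ s1 univ := s1_diff.differentiableOn.analyticOnNhd isOpen_univ
    have a2 : AnalyticOnNhd ℂ (fun z => c * s0 z) univ :=
      (s0_diff.const_mul c).differentiableOn.analyticOnNhd isOpen_univ
    exact a1.eq_of_eventuallyEq a2 hloc
  have hz : ∀ z, s1 z = 0 := by
    intro z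
    have h1 := congrFun hglob (z + I)
    have h2 := congrFun hglob z
    rw [s1_add_I, s0_add_I] at h1
    have h3 : cexp (-π * I * (I + 2 * z)) * s1 z = 0 := by
      have : -(cexp (-π * I * (I + 2 * z)) * s1 z) = cexp (-π * I * (I + 2 * z)) * s1 z := by
        rw [h1, h2]; ring
      linear_combination (-1 / 2 : ℂ) * this
    exact (mul_eq_zero.mp h3).resolve_left (exp_ne_zero _)
  refine s_no_common (z := 0) ?_ (hz 0)
  have := hz (-1 / 2)
  show th 0 = 0
  unfold s1 at this
  rwa [show (-1 / 2 : ℂ) + 1 / 2 = 0 by ring] at this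

end Pool.Agent.X104.CB
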