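import Pool.Agent.X104.CB.Lat
import Pool.Agent.X104.CB.Theta

/-!
The cubic field `ℚ(θ)`, `θ³ = θ + 1`, the lattice and the homeomorphism `Ψ`.
-/

set_option autoImplicit false
set_option linter.unusedSectionVars false

noncomputable section

open Filter Topology Set TopologicalSpace
open scoped Manifold ContDiff ComplexConjugate

namespace Pool.Agent.X104.CB

open Pool.Agent.W711.KC

theorem exists_eps : ∃ x : ℝ, x ^ 3 = x + 1 ∧ 6 / 5 < x ∧ x < 2 := by
  have hc : ContinuousOn (fun x : ℝ => x ^ 3 - x - 1) (Icc (6 / 5) 2) := by fun_prop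
  have h := intermediate_value_Ioo (by norm_num : (6 / 5 : ℝ) ≤ 2) hc
  have h0 : (0 : ℝ) ∈ Ioo ((6 / 5 : ℝ) ^ 3 - 6 / 5 - 1) ((2 : ℝ) ^ 3 - 2 - 1) := by
    constructor <;> norm_num
  obtain ⟨x, hx, hx'⟩ := h h0
  exact ⟨x, by linear_combination hx', hx.1, hx.2⟩

/-- the real root -/
def ep : ℝ := Classical.choose exists_eps

theorem ep_eq : ep ^ 3 = ep + 1 := (Classical.choose_spec exists_eps).1
theorem ep_gt : 6 / 5 < ep := (Classical.choose_spec exists_eps).2.1

theorem ep_disc : 0 < 3 * ep ^ 2 - 4 := by nlinarith [ep_gt]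

/-- the complex root -/
def mu : ℂ := ⟨-ep / 2, Real.sqrt (3 * ep ^ 2 - 4) / 2⟩

theorem mu_im : 0 < mu.im := by
  have := Real.sqrt_pos.mpr ep_disc
  show 0 < Real.sqrt (3 * ep ^ 2 - 4) / 2
  positivity

theorem mu_quad : mu ^ 2 = -(ep : ℂ) * mu - ((ep ^ 2 - 1 : ℝ) : ℂ) := by
  have h := Real.sq_sqrt ep_disc.le
  have h' : mu ^ 2 = mu * mu := pow_two mu
  rw [h']
  apply Complex.ext
  · simp only [Complex.mul_re, Complex.sub_re, Complex.neg_re, Complex.ofReal_re,
      Complex.neg_im, Complex.ofReal_im, mu]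
    linear_combination (-1 / 4) * h
  · simp only [Complex.mul_im, Complex.sub_im, Complex.neg_re, Complex.ofReal_re,
      Complex.neg_im, Complex.ofReal_im, mu]
    ring

theorem mu_cube : mu ^ 3 = mu + 1 := by
  have h2 : ((ep : ℂ)) ^ 3 = ep + 1 := by exact_mod_cast ep_eq
  have q := mu_quad
  push_cast at q
  linear_combination mu * q - (ep : ℂ) * q + h2

theorem mu_normSq : Complex.normSq mu = ep ^ 2 - 1 := by
  have h := Real.sq_sqrt ep_disc.le
  rw [Complex.normSq_apply]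
  simp only [mu]
  linear_combination (1 / 4) * h

theorem mu_normSq_lt : Complex.normSq mu < 1 := by
  rw [mu_normSq]
  have h1 : ep * (ep ^ 2 - 1) = 1 := by linear_combination ep_eq
  by_contra hcon
  rw [not_lt] at hcon
  nlinarith [ep_gt]

theorem mu_ne : mu ≠ 0 := by
  intro h
  have := mu_im
  rw [h] at this
  simp at this

theorem ep_ne : ep ≠ 0 := by have := ep_gt; positivity

/-- The model space `ℂ³`. -/
abbrev C3 : Type := ℂ × ℂ × ℂ
/-- The model space `ℂ⁴`. -/
abbrev C4 : Type := ℂ × ℂ × ℂ × ℂ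

def L1 (μ : ℂ) (x0 x1 x2 : ℝ) : ℂ := x0 + x1 * μ + x2 * μ ^ 2

/-- the lattice map -/
def ThT : (Fin 6 → ℝ) →ₗ[ℝ] C3 where
  toFun x := (L1 mu (x 0) (x 1) (x 2), L1 mu (x 3) (x 4) (x 5),
    L1 ep (x 0) (x 1) (x 2) + Complex.I * L1 ep (x 3) (x 4) (x 5))
  map_add' x y := by
    simp only [L1, Pi.add_apply, Prod.mk_add_mk, Prod.mk.injEq]
    push_cast
    exact ⟨by ring, by ring, by ring⟩
  map_smul' c x := by
    simp only [L1, Pi.smul_apply, smul_eq_mul, RingHom.id_apply, Prod.smul_mk, Prod.mk.injEq,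
      Complex.real_smul]
    push_cast
    exact ⟨by ring, by ring, by ring⟩

theorem L1_inj {x0 x1 x2 : ℝ} (h1 : L1 mu x0 x1 x2 = 0) (h2 : x0 + x1 * ep + x2 * ep ^ 2 = 0) :
    x0 = 0 ∧ x1 = 0 ∧ x2 = 0 := by
  unfold L1 at h1
  rw [mu_quad] at h1
  have h3 : ((x0 - x2 * (ep ^ 2 - 1) : ℝ) : ℂ) + ((x1 - ep * x2 : ℝ) : ℂ) * mu = 0 := by
    rw [← h1]; push_cast; ring
  have him := congrArg Complex.im h3
  have hre := congrArg Complex.re h3
  simp only [Complex.add_im, Complex.add_re, Complex.mul_im, Complex.mul_re, Complex.ofReal_re,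
    Complex.ofReal_im, Complex.zero_im, Complex.zero_re, zero_mul, add_zero, zero_add,
    sub_zero] at him hre
  have h4 : x1 - ep * x2 = 0 := (mul_eq_zero.mp him).resolve_right mu_im.ne'
  rw [h4, zero_mul, add_zero] at hre
  have h5 : x2 * (3 * ep ^ 2 - 1) = 0 := by linear_combination h2 - hre - ep * h4
  have h6 : (3 * ep ^ 2 - 1) ≠ 0 := by
    have := ep_disc
    exact ne_of_gt (by linarith)
  have h7 : x2 = 0 := (mul_eq_zero.mp h5).resolve_right h6
  rw [h7] at h4 hre
  exact ⟨by linarith, by linarith, h7⟩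

theorem ThT_inj : Function.Injective ThT := by
  rw [injective_iff_map_eq_zero]
  intro x hx
  have h1 : L1 mu (x 0) (x 1) (x 2) = 0 := congrArg (fun v : C3 => v.1) hx
  have h2 : L1 mu (x 3) (x 4) (x 5) = 0 := congrArg (fun v : C3 => v.2.1) hx
  have h3 : L1 ep (x 0) (x 1) (x 2) + Complex.I * L1 ep (x 3) (x 4) (x 5) = 0 :=
    congrArg (fun v : C3 => v.2.2) hx
  have e1 : L1 ep (x 0) (x 1) (x 2) = ((x 0 + x 1 * ep + x 2 * ep ^ 2 : ℝ) : ℂ) := by
    unfold L1; push_cast; ring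
  have e2 : L1 ep (x 3) (x 4) (x 5) = ((x 3 + x 4 * ep + x 5 * ep ^ 2 : ℝ) : ℂ) := by
    unfold L1; push_cast; ring
  rw [e1, e2] at h3
  have hre := congrArg Complex.re h3
  have him := congrArg Complex.im h3
  simp only [Complex.add_re, Complex.add_im, Complex.mul_re, Complex.mul_im, Complex.I_re,
    Complex.I_im, Complex.ofReal_re, Complex.ofReal_im, Complex.zero_re, Complex.zero_im,
    zero_mul, one_mul, zero_add, add_zero, sub_zero, mul_zero] at hre him
  obtain ⟨a0, a1, a2⟩ := L1_inj h1 hre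
  obtain ⟨a3, a4, a5⟩ := L1_inj h2 him
  funext i
  fin_cases i <;> assumption

theorem ThT_surj : Function.Surjective ThT := by
  have hd : Module.finrank ℝ (Fin 6 → ℝ) = Module.finrank ℝ C3 := by
    rw [Module.finrank_fin_fun, Module.finrank_prod, Module.finrank_prod,
      Complex.finrank_real_complex]
  exact (LinearMap.injective_iff_surjective_of_finrank_eq_finrank hd).mp ThT_inj

/-- the lattice `ℤ + 2iℤ` map -/
def ThB : (Fin 2 → ℝ) →ₗ[ℝ] ℂ where
  toFun x := x 0 + x 1 * (2 * Complex.I)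
  map_add' x y := by
    simp only [Pi.add_apply]; push_cast; ring
  map_smul' c x := by
    simp only [Pi.smul_apply, smul_eq_mul, RingHom.id_apply, Complex.real_smul]; push_cast; ring

theorem ThB_inj : Function.Injective ThB := by
  rw [injective_iff_map_eq_zero]
  intro x hx
  have h : (x 0 : ℂ) + x 1 * (2 * Complex.I) = 0 := hx
  have hre := congrArg Complex.re h
  have him := congrArg Complex.im h
  simp at hre him
  funext i
  fin_cases i <;> simpa

theorem ThB_surj : Function.Surjective ThB := by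
  have hd : Module.finrank ℝ (Fin 2 → ℝ) = Module.finrank ℝ ℂ := by
    rw [Module.finrank_fin_fun, Complex.finrank_real_complex]
  exact (LinearMap.injective_iff_surjective_of_finrank_eq_finrank hd).mp ThB_inj

/-- the lattice of the fibre torus -/
def LT : AddSubgroup C3 := Lt ThT
/-- the lattice of the base curve -/
def LB : AddSubgroup ℂ := Lt ThB

theorem LB_le {l : ℂ} (hl : l ∈ LB) : l ∈ PerS := by
  obtain ⟨n, rfl⟩ := hl
  have h : ThB (fun i => (n i : ℝ)) = n 0 • (1 : ℂ) + n 1 • (2 * Complex.I) := by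
    show (((n 0 : ℤ) : ℝ) : ℂ) + (((n 1 : ℤ) : ℝ) : ℂ) * (2 * Complex.I) = _
    simp
  rw [h]
  exact PerS.add_mem (PerS.zsmul_mem one_mem_PerS _) (PerS.zsmul_mem two_I_mem_PerS _)

/-- multiplication by the unit `θ` -/
def Am (v : C3) : C3 := (mu * v.1, mu * v.2.1, ep * v.2.2)
def Ai (v : C3) : C3 := (mu⁻¹ * v.1, mu⁻¹ * v.2.1, (ep : ℂ)⁻¹ * v.2.2)

theorem Am_mem {v : C3} (hv : v ∈ LT) : Am v ∈ LT := by
  obtain ⟨n, rfl⟩ := hv
  refine ⟨![n 2, n 0 + n 2, n 1, n 5, n 3 + n 5, n 4], ?_⟩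
  have hm := mu_cube
  have he : ((ep : ℂ)) ^ 3 = ep + 1 := by exact_mod_cast ep_eq
  show (mu * L1 mu _ _ _, mu * L1 mu _ _ _, (ep : ℂ) * (L1 ep _ _ _ + Complex.I * L1 ep _ _ _)) =
    (L1 mu _ _ _, L1 mu _ _ _, L1 ep _ _ _ + Complex.I * L1 ep _ _ _)
  simp only [L1, Prod.mk.injEq, Matrix.cons_val]
  push_cast
  refine ⟨?_, ?_, ?_⟩
  · linear_combination (n 2 : ℂ) * hm
  · linear_combination (n 5 : ℂ) * hm
  · linear_combination ((n 2 : ℂ) + Complex.I * n 5) * he

theorem Ai_mem {v : C3} (hv : v ∈ LT) : Ai v ∈ LT := by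
  obtain ⟨n, rfl⟩ := hv
  have h : ThT (fun i => (n i : ℝ)) = Am (ThT (fun i =>
      ((![n 1 - n 0, n 2, n 0, n 4 - n 3, n 5, n 3] : Fin 6 → ℤ) i : ℝ))) := by
    have hm := mu_cube
    have he : ((ep : ℂ)) ^ 3 = ep + 1 := by exact_mod_cast ep_eq
    show (L1 mu _ _ _, L1 mu _ _ _, L1 ep _ _ _ + Complex.I * L1 ep _ _ _) =
      (mu * L1 mu _ _ _, mu * L1 mu _ _ _, (ep : ℂ) * (L1 ep _ _ _ + Complex.I * L1 ep _ _ _))
    simp only [L1, Prod.mk.injEq, Matrix.cons_val]
    push_cast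
    refine ⟨?_, ?_, ?_⟩
    · linear_combination (-(n 0 : ℂ)) * hm
    · linear_combination (-(n 3 : ℂ)) * hm
    · linear_combination (-((n 0 : ℂ) + Complex.I * n 3)) * he
  rw [h]
  have h2 : ∀ w : C3, Ai (Am w) = w := by
    intro w
    have e1 : (ep : ℂ) ≠ 0 := by exact_mod_cast ep_ne
    unfold Ai Am
    refine Prod.ext ?_ (Prod.ext ?_ ?_)
    · simp only []; rw [← mul_assoc, inv_mul_cancel₀ mu_ne, one_mul]
    · simp only []; rw [← mul_assoc, inv_mul_cancel₀ mu_ne, one_mul]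
    · simp only []; rw [← mul_assoc, inv_mul_cancel₀ e1, one_mul]
  rw [h2]
  exact ⟨_, rfl⟩

/-! ### the map `Ψ` -/

/-- `|s₀|² + |s₁|²` -/
def nn (z : ℂ) : ℝ := Complex.normSq (s0 z) + Complex.normSq (s1 z)

theorem nn_pos (z : ℂ) : 0 < nn z := by
  unfold nn
  have h0 := Complex.normSq_nonneg (s0 z)
  have h1 := Complex.normSq_nonneg (s1 z)
  rcases eq_or_lt_of_le h0 with h | h
  · rcases eq_or_lt_of_le h1 with h' | h'
    · exact absurd (Complex.normSq_eq_zero.mp h'.symm)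
        fun h2 => s_no_common (Complex.normSq_eq_zero.mp h.symm) h2
    · linarith
  · linarith

/-- the real coordinates `w₁, w₂` -/
def W1 (p : C4) : ℂ := (s0 p.1 * conj p.2.2.1 - conj (s1 p.1) * p.2.1) / nn p.1
def W2 (p : C4) : ℂ := (conj (s0 p.1) * p.2.1 + s1 p.1 * conj p.2.2.1) / nn p.1

theorem nn_cont : Continuous nn := by
  unfold nn
  exact (Complex.continuous_normSq.comp s0_diff.continuous).add
    (Complex.continuous_normSq.comp s1_diff.continuous)

theorem nnC_ne (z : ℂ) : (nn z : ℂ) ≠ 0 := by exact_mod_cast (nn_pos z).ne'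

theorem nnC_eq (z : ℂ) : (nn z : ℂ) = s0 z * conj (s0 z) + s1 z * conj (s1 z) := by
  rw [Complex.mul_conj, Complex.mul_conj, nn]; push_cast; ring

def Ps : (ℂ × C3) ≃ₜ C4 where
  toFun v := (v.1, s0 v.1 * v.2.2.1 - s1 v.1 * v.2.1,
    s0 v.1 * conj v.2.1 + s1 v.1 * conj v.2.2.1, v.2.2.2)
  invFun p := (p.1, W1 p, W2 p, p.2.2.2)
  left_inv v := by
    obtain ⟨z, w1, w2, y⟩ := v
    have hn := nnC_ne z
    refine Prod.ext rfl (Prod.ext ?_ (Prod.ext ?_ rfl))
    · show (s0 z * conj (s0 z * conj w1 + s1 z * conj w2) -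
        conj (s1 z) * (s0 z * w2 - s1 z * w1)) / nn z = w1
      rw [div_eq_iff hn, nnC_eq]
      simp only [map_add, map_mul, Complex.conj_conj]
      ring
    · show (conj (s0 z) * (s0 z * w2 - s1 z * w1) +
        s1 z * conj (s0 z * conj w1 + s1 z * conj w2)) / nn z = w2
      rw [div_eq_iff hn, nnC_eq]
      simp only [map_add, map_mul, Complex.conj_conj]
      ring
  right_inv p := by
    obtain ⟨z, a, b, y⟩ := p
    have hn := nnC_ne z
    have hn' : (conj (nn z : ℂ)) = nn z := Complex.conj_ofReal _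
    refine Prod.ext rfl (Prod.ext ?_ (Prod.ext ?_ rfl))
    · show s0 z * ((conj (s0 z) * a + s1 z * conj b) / nn z) -
        s1 z * ((s0 z * conj b - conj (s1 z) * a) / nn z) = a
      rw [mul_div_assoc', mul_div_assoc', ← sub_div, div_eq_iff hn, nnC_eq]
      ring
    · show s0 z * conj ((s0 z * conj b - conj (s1 z) * a) / nn z) +
        s1 z * conj ((conj (s0 z) * a + s1 z * conj b) / nn z) = b
      rw [map_div₀, map_div₀, hn', mul_div_assoc', mul_div_assoc', ← add_div, div_eq_iff hn, nnC_eq]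
      simp only [map_add, map_sub, map_mul, Complex.conj_conj]
      ring
  continuous_toFun := by
    have h0 := s0_diff.continuous
    have h1 := s1_diff.continuous
    have hc : Continuous (fun z : ℂ => conj z) := Complex.continuous_conj
    fun_prop
  continuous_invFun := by
    have h0 := s0_diff.continuous
    have h1 := s1_diff.continuous
    have hn := nn_cont
    have hc : Continuous (fun z : ℂ => conj z) := Complex.continuous_conj
    refine continuous_fst.prodMk (Continuous.prodMk ?_ (Continuous.prodMk ?_ (by fun_prop)))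
    · unfold W1
      exact (Continuous.sub (by fun_prop) (by fun_prop)).div (by fun_prop) fun p => nnC_ne _
    · unfold W2
      exact (Continuous.add (by fun_prop) (by fun_prop)).div (by fun_prop) fun p => nnC_ne _

theorem Ps_apply (v : ℂ × C3) : Ps v = (v.1, s0 v.1 * v.2.2.1 - s1 v.1 * v.2.1,
    s0 v.1 * conj v.2.1 + s1 v.1 * conj v.2.2.1, v.2.2.2) := rfl

theorem Ps_symm_apply (p : C4) : Ps.symm p = (p.1, W1 p, W2 p, p.2.2.2) := rfl

end Pool.Agent.X104.CB
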