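import Pool.Agent.W711.KC.Quot2

/-!
Complex manifolds `E / Γ`, where `Γ` is conjugate by a homeomorphism `Ψ : V ≃ E` to a lattice of
translations of `V`.
-/

set_option autoImplicit false
set_option linter.unusedSectionVars false

noncomputable section

open Filter Topology Set TopologicalSpace
open scoped Manifold ContDiff

namespace Pool.Agent.X104.CB

open Pool.Agent.W711.KC

/-! ### lattices -/

section lattice

variable {V : Type} [NormedAddCommGroup V] [NormedSpace ℝ V] {ι : Type} [Fintype ι]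

/-- the lattice spanned by the images of the standard basis -/
def Lt (Θ : (ι → ℝ) →ₗ[ℝ] V) : AddSubgroup V where
  carrier := {v | ∃ n : ι → ℤ, v = Θ (fun i => (n i : ℝ))}
  zero_mem' := ⟨0, by simp [show (fun _ : ι => (0 : ℝ)) = 0 from rfl]⟩
  add_mem' := by
    rintro a b ⟨n, rfl⟩ ⟨m, rfl⟩
    refine ⟨n + m, ?_⟩
    rw [← map_add]
    congr 1
    funext i
    simp
  neg_mem' := by
    rintro a ⟨n, rfl⟩
    refine ⟨-n, ?_⟩
    rw [← map_neg]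
    congr 1
    funext i
    simp

variable [FiniteDimensional ℝ V]

theorem lt_finite (Θ : (ι → ℝ) →ₗ[ℝ] V) (hΘ : Function.Injective Θ) (R : ℝ) :
    {v | v ∈ Lt Θ ∧ ‖v‖ ≤ R}.Finite := by
  classical
  obtain ⟨K, hK, hanti⟩ := Θ.exists_antilipschitzWith (LinearMap.ker_eq_bot.mpr hΘ)
  set C : ℤ := ⌈(K : ℝ) * R⌉ with hC
  refine ((Set.finite_Icc (fun _ : ι => -C) (fun _ : ι => C)).image
    (fun n : ι → ℤ => Θ (fun i => (n i : ℝ)))).subset ?_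
  rintro v ⟨⟨n, rfl⟩, hv⟩
  refine ⟨n, ?_, rfl⟩
  have h1 : ‖(fun i => (n i : ℝ))‖ ≤ K * R := by
    have h2 := hanti.le_mul_dist (fun i => (n i : ℝ)) 0
    rw [dist_zero_right, map_zero, dist_zero_right] at h2
    exact h2.trans (by gcongr)
  have h3 : ∀ i, |n i| ≤ C := by
    intro i
    have h4 : |(n i : ℝ)| ≤ K * R := (norm_le_pi_norm (fun i => (n i : ℝ)) i).trans h1
    have h5 : ((|n i| : ℤ) : ℝ) ≤ C := by
      push_cast
      exact h4.trans (Int.le_ceil _)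
    exact_mod_cast h5
  exact ⟨fun i => (abs_le.mp (h3 i)).1, fun i => (abs_le.mp (h3 i)).2⟩

theorem lt_cocompact (Θ : (ι → ℝ) →ₗ[ℝ] V) (hΘ : Function.Surjective Θ) :
    ∃ R : ℝ, ∀ x : V, ∃ l ∈ Lt Θ, ‖x - l‖ ≤ R := by
  set Θ' : (ι → ℝ) →L[ℝ] V := LinearMap.toContinuousLinearMap Θ with hΘ'
  refine ⟨‖Θ'‖ * 1, fun x => ?_⟩
  obtain ⟨t, rfl⟩ := hΘ x
  refine ⟨Θ (fun i => ((⌊t i⌋ : ℤ) : ℝ)), ⟨fun i => ⌊t i⌋, rfl⟩, ?_⟩
  rw [← map_sub]
  have h1 : Θ (t - fun i => ((⌊t i⌋ : ℤ) : ℝ)) = Θ' (t - fun i => ((⌊t i⌋ : ℤ) : ℝ)) := rfl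
  rw [h1]
  refine (Θ'.le_opNorm _).trans ?_
  gcongr
  rw [pi_norm_le_iff_of_nonneg zero_le_one]
  intro i
  rw [Pi.sub_apply, Real.norm_eq_abs, abs_of_nonneg (by linarith [Int.floor_le (t i)])]
  linarith [Int.lt_floor_add_one (t i)]

end lattice

/-! ### the quotient -/

section quotient

variable {V E : Type} [NormedAddCommGroup V] [NormedAddCommGroup E] [NormedSpace ℂ E]
  [LocallyCompactSpace E]

/-- the deck transformation of the translation by `l` -/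
def tr (Ψ : V ≃ₜ E) (l : V) : Equiv.Perm (⊤ : Opens E) where
  toFun p := ⟨Ψ (Ψ.symm p + l), trivial⟩
  invFun p := ⟨Ψ (Ψ.symm p - l), trivial⟩
  left_inv p := by
    apply Subtype.ext
    simp
  right_inv p := by
    apply Subtype.ext
    simp

theorem tr_coe (Ψ : V ≃ₜ E) (l : V) (p : (⊤ : Opens E)) :
    (tr Ψ l p : E) = Ψ (Ψ.symm p + l) := rfl

theorem tr_mul (Ψ : V ≃ₜ E) (a b : V) : tr Ψ a * tr Ψ b = tr Ψ (a + b) := by
  ext p
  show (tr Ψ a (tr Ψ b p) : E) = tr Ψ (a + b) p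
  rw [tr_coe, tr_coe, tr_coe, Ψ.symm_apply_apply]
  congr 1; abel

theorem tr_zero (Ψ : V ≃ₜ E) : tr Ψ 0 = 1 := by
  ext p
  show (tr Ψ 0 p : E) = p
  rw [tr_coe, add_zero, Ψ.apply_symm_apply]

theorem tr_inv (Ψ : V ≃ₜ E) (a : V) : (tr Ψ a)⁻¹ = tr Ψ (-a) := by
  rw [inv_eq_iff_mul_eq_one, tr_mul, add_neg_cancel, tr_zero]

/-- the group of deck transformations -/
def CG (Ψ : V ≃ₜ E) (Λ : AddSubgroup V) : Subgroup (Equiv.Perm (⊤ : Opens E)) where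
  carrier := {σ | ∃ l ∈ Λ, σ = tr Ψ l}
  one_mem' := ⟨0, Λ.zero_mem, (tr_zero Ψ).symm⟩
  mul_mem' := by
    rintro _ _ ⟨a, ha, rfl⟩ ⟨b, hb, rfl⟩
    exact ⟨a + b, Λ.add_mem ha hb, tr_mul Ψ a b⟩
  inv_mem' := by
    rintro _ ⟨a, ha, rfl⟩
    exact ⟨-a, Λ.neg_mem ha, tr_inv Ψ a⟩

/-- a lattice acting by holomorphic maps -/
class LatHol (Ψ : V ≃ₜ E) (Λ : AddSubgroup V) : Prop where
  hol : ∀ l ∈ Λ, ContDiff ℂ ω (fun p : E => Ψ (Ψ.symm p + l))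
  fin : ∀ R : ℝ, {v | v ∈ Λ ∧ ‖v‖ ≤ R}.Finite
  coc : ∃ R : ℝ, ∀ x : V, ∃ l ∈ Λ, ‖x - l‖ ≤ R

theorem ex_tr (Ψ : V ≃ₜ E) (l : V) : ex (tr Ψ l : (⊤ : Opens E) → (⊤ : Opens E)) =
    fun p => Ψ (Ψ.symm p + l) := by
  funext p
  exact ex_apply (tr Ψ l : (⊤ : Opens E) → (⊤ : Opens E)) ⟨p, trivial⟩

instance (Ψ : V ≃ₜ E) (Λ : AddSubgroup V) [h : LatHol Ψ Λ] : HolGroup (CG Ψ Λ) where
  hol := by
    rintro _ ⟨l, hl, rfl⟩
    rw [ex_tr]
    exact (h.hol l hl).contDiffOn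
  free := by
    rintro _ ⟨l, hl, rfl⟩ x hx
    have h1 : (tr Ψ l x : E) = x := congrArg Subtype.val hx
    rw [tr_coe] at h1
    have h2 : Ψ.symm (x : E) + l = Ψ.symm (x : E) := by
      rw [← Ψ.symm_apply_apply (Ψ.symm (x : E) + l), h1]
    have h3 : l = 0 := by
      have := add_eq_left.mp h2
      exact this
    rw [h3, tr_zero]
  pd := by
    intro K L hK hL
    have hK' : IsCompact ((fun p : (⊤ : Opens E) => Ψ.symm (p : E)) '' K) :=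
      hK.image (Ψ.symm.continuous.comp continuous_subtype_val)
    have hL' : IsCompact ((fun p : (⊤ : Opens E) => Ψ.symm (p : E)) '' L) :=
      hL.image (Ψ.symm.continuous.comp continuous_subtype_val)
    obtain ⟨A, hA⟩ := hK'.isBounded.exists_norm_le
    obtain ⟨B, hB⟩ := hL'.isBounded.exists_norm_le
    have hfin := h.fin (A + B)
    have h2 : {γ : CG Ψ Λ | ((fun x => (γ : Equiv.Perm (⊤ : Opens E)) x) '' K ∩ L).Nonempty} ⊆
        (fun γ : CG Ψ Λ => (γ : Equiv.Perm (⊤ : Opens E))) ⁻¹' ((tr Ψ) '' {v | v ∈ Λ ∧ ‖v‖ ≤ A + B}) := by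
      rintro ⟨_, ⟨l, hl, rfl⟩⟩ ⟨y, ⟨x, hx, hxy⟩, hy⟩
      refine ⟨l, ⟨hl, ?_⟩, rfl⟩
      have e1 : Ψ.symm (y : E) = Ψ.symm (x : E) + l := by
        have : (tr Ψ l x : E) = y := congrArg Subtype.val hxy
        rw [← this, tr_coe, Ψ.symm_apply_apply]
      have e2 : l = Ψ.symm (y : E) - Ψ.symm (x : E) := by rw [e1]; abel
      rw [e2]
      have n1 : ‖Ψ.symm (x : E)‖ ≤ A := hA _ ⟨x, hx, rfl⟩
      have n2 : ‖Ψ.symm (y : E)‖ ≤ B := hB _ ⟨y, hy, rfl⟩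
      linarith [norm_sub_le (Ψ.symm (y : E)) (Ψ.symm (x : E))]
    refine Set.Finite.subset ?_ h2
    exact (hfin.image (tr Ψ)).preimage (Subtype.val_injective.injOn)

variable (Ψ : V ≃ₜ E) (Λ : AddSubgroup V)

/-- the projection from the vector space `V` -/
def qq (v : V) : QQ (CG Ψ Λ) := pr (CG Ψ Λ) ⟨Ψ v, trivial⟩

theorem qq_surj : Function.Surjective (qq Ψ Λ) := by
  intro q
  obtain ⟨y, rfl⟩ := pr_surj (CG Ψ Λ) q
  refine ⟨Ψ.symm y, ?_⟩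
  unfold qq
  congr 1
  apply Subtype.ext
  exact Ψ.apply_symm_apply _

theorem qq_eq_iff {a b : V} : qq Ψ Λ a = qq Ψ Λ b ↔ b - a ∈ Λ := by
  unfold qq
  rw [pr_eq_iff]
  constructor
  · rintro ⟨_, ⟨l, hl, rfl⟩, h⟩
    have h1 := congrArg Subtype.val h
    rw [tr_coe] at h1
    have h2 : a + l = b := by
      have h3 : Ψ (Ψ.symm (Ψ a) + l) = Ψ b := h1
      rw [Ψ.symm_apply_apply] at h3
      exact Ψ.injective h3
    rw [← h2]; simpa using hl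
  · intro h
    refine ⟨tr Ψ (b - a), ⟨b - a, h, rfl⟩, ?_⟩
    apply Subtype.ext
    rw [tr_coe]
    show Ψ (Ψ.symm (Ψ a) + (b - a)) = Ψ b
    rw [Ψ.symm_apply_apply]
    congr 1; abel

theorem qq_cont : Continuous (qq Ψ Λ) :=
  (continuous_pr _).comp (Ψ.continuous.subtype_mk _)

theorem pr_open [LatHol Ψ Λ] : IsOpenMap (pr (CG Ψ Λ)) := isOpenMap_quotient_mk'_mul

theorem qq_open [LatHol Ψ Λ] : IsOpenMap (qq Ψ Λ) := by
  have h1 : IsOpenMap (fun v : V => (⟨Ψ v, trivial⟩ : (⊤ : Opens E))) := by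
    intro s hs
    have h2 : IsOpen (Ψ '' s) := Ψ.isOpenMap s hs
    have h3 : (fun v : V => (⟨Ψ v, trivial⟩ : (⊤ : Opens E))) '' s =
        (fun p : (⊤ : Opens E) => (p : E)) ⁻¹' (Ψ '' s) := by
      ext p
      constructor
      · rintro ⟨v, hv, rfl⟩
        exact ⟨v, hv, rfl⟩
      · rintro ⟨v, hv, h⟩
        exact ⟨v, hv, Subtype.ext h⟩
    rw [h3]
    exact h2.preimage continuous_subtype_val
  exact (pr_open Ψ Λ).comp h1

theorem qq_quot [LatHol Ψ Λ] : IsOpenQuotientMap (qq Ψ Λ) :=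
  ⟨qq_surj Ψ Λ, qq_cont Ψ Λ, qq_open Ψ Λ⟩

theorem qq_compact [ProperSpace V] [h : LatHol Ψ Λ] : CompactSpace (QQ (CG Ψ Λ)) := by
  obtain ⟨R, hR⟩ := h.coc
  refine ⟨?_⟩
  have h1 : (univ : Set (QQ (CG Ψ Λ))) = qq Ψ Λ '' Metric.closedBall 0 R := by
    symm
    rw [eq_univ_iff_forall]
    intro q
    obtain ⟨v, rfl⟩ := qq_surj Ψ Λ q
    obtain ⟨l, hl, hv⟩ := hR v
    refine ⟨v - l, by simpa using hv, ?_⟩
    rw [qq_eq_iff]
    simpa using hl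
  rw [h1]
  exact (isCompact_closedBall _ _).image (qq_cont Ψ Λ)

theorem qq_connected [NormedSpace ℝ V] : ConnectedSpace (QQ (CG Ψ Λ)) := by
  have : ConnectedSpace V := inferInstance
  exact (qq_surj Ψ Λ).connectedSpace (qq_cont Ψ Λ)

end quotient

end Pool.Agent.X104.CB
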