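import Pool.Agent.X104.CB.Bun

/-!
Partial hyperbolicity, the metric, and the center bundle is not holomorphic.
-/

set_option autoImplicit false
set_option linter.unusedSectionVars false
set_option linter.unusedVariables false

noncomputable section

open Filter Topology Set TopologicalSpace
open scoped Manifold ContDiff ComplexConjugate

namespace Pool.Agent.X104.CB

open Pool.Agent.W711.KC

section defs

variable {M : Type} [TopologicalSpace M] [ChartedSpace C4 M]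

/-- `g`, the squared length, is a (continuous) Riemannian metric. -/
structure IsRiemannianMetric [IsManifold 𝓘(ℂ, C4) 1 M]
    (g : ∀ x : M, TangentSpace 𝓘(ℂ, C4) x → ℝ) : Prop where
  bilin : ∀ x, ∃ b : C4 →ₗ[ℝ] C4 →ₗ[ℝ] ℝ, (∀ u v, b u v = b v u) ∧ ∀ v, g x v = b v v
  pos : ∀ x (v : C4), v ≠ 0 → 0 < g x v
  cont : Continuous fun v : TangentBundle 𝓘(ℂ, C4) M => g v.1 v.2

variable [IsManifold 𝓘(ℂ, C4) 1 M]

def IsContSub (F : ∀ x : M, Submodule ℂ (TangentSpace 𝓘(ℂ, C4) x)) : Prop :=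
  ∀ x₀ : M, ∃ U : Set M, IsOpen U ∧ x₀ ∈ U ∧
    ∃ (k : ℕ) (V : Fin k → ∀ x : M, TangentSpace 𝓘(ℂ, C4) x),
      (∀ i, ContinuousOn (fun x => (⟨x, V i x⟩ : TangentBundle 𝓘(ℂ, C4) M)) U) ∧
        ∀ x ∈ U, LinearIndependent ℂ (fun i => V i x) ∧
          F x = Submodule.span ℂ (range fun i => V i x)

def IsHolSub (F : ∀ x : M, Submodule ℂ (TangentSpace 𝓘(ℂ, C4) x)) : Prop :=
  ∀ x₀ : M, ∃ U : Set M, IsOpen U ∧ x₀ ∈ U ∧
    ∃ (k : ℕ) (V : Fin k → ∀ x : M, TangentSpace 𝓘(ℂ, C4) x),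
      (∀ i, MDifferentiableOn 𝓘(ℂ, C4) 𝓘(ℂ, C4).tangent
        (fun x => (⟨x, V i x⟩ : TangentBundle 𝓘(ℂ, C4) M)) U) ∧
        ∀ x ∈ U, F x = Submodule.span ℂ (range fun i => V i x)

end defs

/-! ### the bundles -/

def gM (q : MM) (v : TangentSpace 𝓘(ℂ, C4) q) : ℝ := gt4 (chartAt C4 q q) v

def EsM (q : MM) : Submodule ℂ (TangentSpace 𝓘(ℂ, C4) q) := Bs (chartAt C4 q q)
def EcM (q : MM) : Submodule ℂ (TangentSpace 𝓘(ℂ, C4) q) := Bc (chartAt C4 q q)
def EuM (q : MM) : Submodule ℂ (TangentSpace 𝓘(ℂ, C4) q) := Bu (chartAt C4 q q)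

theorem compat_coord {x z : MM} (hz : z ∈ (chartAt C4 x).source) :
    ∃ j : ℂ, j ≠ 0 ∧ nn (chartAt C4 z z).1 = Complex.normSq j * nn (chartAt C4 x z).1 ∧
      Compat (tangentCoordChange 𝓘(ℂ, C4) x z z) (chartAt C4 x z) (chartAt C4 z z) 1 j j 1 := by
  obtain ⟨γ, hγ, h1, h2⟩ := tangentCoordChange_eq hz (mem_chart_source C4 z)
  obtain ⟨j, hj, hn, h3⟩ := compat_deck hγ (chartAt C4 x z)
  rw [h2, ← h1]
  exact ⟨j, hj, hn, h3⟩

theorem fs_li (p : C4) : LinearIndependent ℂ (fun i => fs i p) := by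
  rw [Fintype.linearIndependent_iff]
  intro g hg
  rw [Fin.sum_univ_two] at hg
  simp [fs] at hg
  intro i
  fin_cases i
  · exact hg.1
  · exact hg.2

theorem fc_li (p : C4) : LinearIndependent ℂ (fun i => fc i p) := by
  refine LinearIndependent.of_subsingleton (0 : Fin 1) ?_
  intro h
  have := congrArg (fun v : C4 => v.1) h
  simp [fc] at this

theorem fu_li (p : C4) : LinearIndependent ℂ (fun i => fu i p) := by
  refine LinearIndependent.of_subsingleton (0 : Fin 1) ?_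
  intro h
  have := congrArg (fun v : C4 => v.2.2.2) h
  simp [fu] at this

theorem cont_of_span {k : ℕ} {F : ∀ x : MM, Submodule ℂ (TangentSpace 𝓘(ℂ, C4) x)}
    {B : C4 → Submodule ℂ C4} {s : Fin k → C4 → C4} (hF : ∀ q, F q = B (chartAt C4 q q))
    (hB : ∀ p, B p = Submodule.span ℂ (range fun i => s i p)) (hs : ∀ i, Continuous (s i))
    (hli : ∀ p, LinearIndependent ℂ (fun i => s i p))
    (hmap : ∀ (D : C4 →L[ℂ] C4) (p p' : C4) (a b c d : ℂ), Compat D p p' a b c d →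
      (B p).map D.toLinearMap = B p') : IsContSub F := by
  intro x₀
  refine ⟨(chartAt C4 x₀).source, (chartAt C4 x₀).open_source, mem_chart_source C4 x₀, k,
    fun i q => vec x₀ (s i) q, fun i => continuousOn_vec x₀ (hs i).continuousOn, fun x hx => ?_⟩
  obtain ⟨j, -, -, h⟩ := compat_coord hx
  have e1 : ∀ i, vec x₀ (s i) x = tangentCoordChange 𝓘(ℂ, C4) x₀ x x (s i (chartAt C4 x₀ x)) :=
    fun i => vec_eq x₀ (s i) hx
  have e2 := hmap _ _ _ _ _ _ _ h
  constructor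
  · have h3 : (fun i => vec x₀ (s i) x) = (tangentCoordChange 𝓘(ℂ, C4) x₀ x x).toLinearMap ∘
        (fun i => s i (chartAt C4 x₀ x)) := funext e1
    rw [h3]
    exact (hli _).map' _ (LinearMap.ker_eq_bot.mpr h.injective)
  · rw [hF, ← e2, hB, Submodule.map_span]
    congr 1
    ext v
    constructor
    · rintro ⟨_, ⟨i, rfl⟩, rfl⟩
      exact ⟨i, e1 i⟩
    · rintro ⟨i, rfl⟩
      exact ⟨_, ⟨i, rfl⟩, (e1 i).symm⟩

theorem W_cont : Continuous W1 ∧ Continuous W2 := by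
  have h := Ps.symm.continuous
  have h2 : Continuous (fun p : C4 => (Ps.symm p).2) := h.snd
  exact ⟨h2.fst, h2.snd.fst⟩

theorem A4_cont : Continuous A4 := by
  have h0 : Continuous (deriv s0) := s0_cd.continuous_deriv (by simp)
  have h1 : Continuous (deriv s1) := s1_cd.continuous_deriv (by simp)
  obtain ⟨w1, w2⟩ := W_cont
  unfold A4
  fun_prop

theorem B4_cont : Continuous B4 := by
  have h0 : Continuous (deriv s0) := s0_cd.continuous_deriv (by simp)
  have h1 : Continuous (deriv s1) := s1_cd.continuous_deriv (by simp)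
  obtain ⟨w1, w2⟩ := W_cont
  have hc : Continuous (fun z : ℂ => conj z) := Complex.continuous_conj
  have k1 : Continuous fun p => conj (W1 p) := hc.comp w1
  have k2 : Continuous fun p => conj (W2 p) := hc.comp w2
  unfold B4
  fun_prop

theorem gt4_cont : Continuous fun x : C4 × C4 => gt4 x.1 x.2 := by
  have hA := A4_cont
  have hB := B4_cont
  have hn := nn_cont
  have hsq := Complex.continuous_normSq
  have h1 : Continuous fun x : C4 × C4 => o1 x.1 x.2 := by unfold o1; fun_prop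
  have h2 : Continuous fun x : C4 × C4 => o2 x.1 x.2 := by unfold o2; fun_prop
  have h3 : Continuous fun x : C4 × C4 => nn x.1.1 := by fun_prop
  unfold gt4
  exact ((hsq.comp (by fun_prop)).add (((hsq.comp h1).add (hsq.comp h2)).div h3
    fun x => (nn_pos _).ne')).add (hsq.comp (by fun_prop))

theorem gt_compat {D : C4 →L[ℂ] C4} {p p' : C4} {a b c d j m : ℂ}
    (hc : Compat D p p' a b c d) (hj : j ≠ 0)
    (hn : nn p'.1 = Complex.normSq j * nn p.1) (ha : Complex.normSq a = 1)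
    (hb : Complex.normSq b = Complex.normSq j * Complex.normSq m)
    (hc' : Complex.normSq c = Complex.normSq j * Complex.normSq m) (v : C4) :
    gt4 p' (D v) = Complex.normSq v.1 + Complex.normSq m *
      ((Complex.normSq (o1 p v) + Complex.normSq (o2 p v)) / nn p.1) +
      Complex.normSq d * Complex.normSq v.2.2.2 := by
  have hj' : Complex.normSq j ≠ 0 := by simpa using hj
  have hn' := (nn_pos p.1).ne'
  unfold gt4
  rw [hc.h1, hc.h2, hc.h3, hc.h4, hn, map_mul, map_mul, map_mul, map_mul, ha, hb, hc']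
  field_simp

theorem gM_coord {x q : MM} (hq : q ∈ (chartAt C4 x).source) (u : C4) :
    gM q (tangentCoordChange 𝓘(ℂ, C4) x q q u) = gt4 (chartAt C4 x q) u := by
  obtain ⟨j, hj, hn, h⟩ := compat_coord hq
  have := gt_compat (m := 1) h hj hn (by simp) (by simp) (by simp) u
  unfold gM
  rw [this]
  simp [gt4]

theorem gM_cont : Continuous fun v : TangentBundle 𝓘(ℂ, C4) MM => gM v.1 v.2 := by
  rw [continuous_iff_continuousAt]
  intro v₀
  set e := trivializationAt C4 (TangentSpace 𝓘(ℂ, C4) (M := MM)) v₀.1 with he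
  have hs : v₀ ∈ e.source := by
    rw [e.mem_source]
    exact FiberBundle.mem_baseSet_trivializationAt' v₀.1
  have h1 : (fun v : TangentBundle 𝓘(ℂ, C4) MM => gM v.1 v.2) =ᶠ[𝓝 v₀]
      fun v => gt4 (chartAt C4 v₀.1 (e v).1) (e v).2 := by
    filter_upwards [e.open_source.mem_nhds hs] with v hv
    have hb : v.1 ∈ e.baseSet := e.mem_source.mp hv
    have hq : v.1 ∈ (chartAt C4 v₀.1).source := hb
    have e1 : (e v).1 = v.1 := e.coe_fst hv
    have e2 : e.symm v.1 (e v).2 = v.2 := e.symm_apply_apply_mk hb v.2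
    have e3 := vec_eq v₀.1 (fun _ => (e v).2) hq
    have e4 : vec v₀.1 (fun _ => (e v).2) v.1 = v.2 := e2
    rw [e4] at e3
    rw [e1, ← gM_coord hq (e v).2, ← e3]
  refine ContinuousAt.congr ?_ h1.symm
  have h2 : ContinuousAt e v₀ := e.continuousAt hs
  have h3 : ContinuousAt (chartAt C4 v₀.1) (e v₀).1 := by
    have : (e v₀).1 = v₀.1 := e.coe_fst hs
    rw [this]
    exact (chartAt C4 v₀.1).continuousAt (mem_chart_source C4 v₀.1)
  have h4 : ContinuousAt (fun v => chartAt C4 v₀.1 (e v).1) v₀ :=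
    ContinuousAt.comp (g := chartAt C4 v₀.1) (f := fun v => (e v).1) h3
      (continuous_fst.continuousAt.comp h2)
  have h5 : ContinuousAt (fun v => (e v).2) v₀ := continuous_snd.continuousAt.comp h2
  exact gt4_cont.continuousAt.comp (h4.prodMk h5)

theorem real_smul_o (p : C4) (c : ℝ) (v : C4) : o1 p (c • v) = c * o1 p v ∧
    o2 p (c • v) = c * o2 p v := by
  constructor
  · simp only [o1, Prod.smul_fst, Prod.smul_snd, Complex.real_smul]; ring
  · simp only [o2, Prod.smul_fst, Prod.smul_snd, Complex.real_smul]; ring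

def rr (z w : ℂ) : ℝ := z.re * w.re + z.im * w.im

theorem rr_self (z : ℂ) : rr z z = Complex.normSq z := by
  rw [rr, Complex.normSq_apply]

theorem rr_comm (z w : ℂ) : rr z w = rr w z := by unfold rr; ring
theorem rr_add (z z' w : ℂ) : rr (z + z') w = rr z w + rr z' w := by
  simp only [rr, Complex.add_re, Complex.add_im]; ring
theorem rr_smul (c : ℝ) (z w : ℂ) : rr (c * z) w = c * rr z w := by
  simp only [rr, Complex.mul_re, Complex.mul_im, Complex.ofReal_re, Complex.ofReal_im]; ring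

def bb (p u v : C4) : ℝ := rr u.1 v.1 + (rr (o1 p u) (o1 p v) + rr (o2 p u) (o2 p v)) / nn p.1 +
  rr u.2.2.2 v.2.2.2

theorem bb_comm (p u v : C4) : bb p u v = bb p v u := by
  unfold bb
  rw [rr_comm u.1, rr_comm (o1 p u), rr_comm (o2 p u), rr_comm u.2.2.2]

theorem bb_add (p u u' v : C4) : bb p (u + u') v = bb p u v + bb p u' v := by
  unfold bb
  rw [o1_add, o2_add, Prod.fst_add, Prod.snd_add, Prod.snd_add, Prod.snd_add, rr_add, rr_add,
    rr_add, rr_add]
  ring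

theorem bb_smul (p : C4) (c : ℝ) (u v : C4) : bb p (c • u) v = c * bb p u v := by
  obtain ⟨h1, h2⟩ := real_smul_o p c u
  unfold bb
  rw [h1, h2, Prod.smul_fst, Prod.smul_snd, Prod.smul_snd, Prod.smul_snd, Complex.real_smul,
    Complex.real_smul, rr_smul, rr_smul, rr_smul, rr_smul]
  ring

theorem gM_metric : IsRiemannianMetric gM where
  bilin := by
    intro x
    refine ⟨LinearMap.mk₂ ℝ (bb (chartAt C4 x x)) (bb_add _) (bb_smul _) (fun u v v' => ?_)
      (fun c u v => ?_), fun u v => bb_comm _ u v, fun v => ?_⟩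
    · rw [bb_comm, bb_add, bb_comm, bb_comm _ v']
    · rw [bb_comm, bb_smul, bb_comm]; rfl
    · show gt4 (chartAt C4 x x) (v : C4) = bb (chartAt C4 x x) (v : C4) v
      unfold bb gt4
      rw [rr_self, rr_self, rr_self, rr_self]
  pos := by
    intro x v hv
    show 0 < gt4 (chartAt C4 x x) v
    set p := chartAt C4 x x with hp
    have h1 := Complex.normSq_nonneg v.1
    have h2 := Complex.normSq_nonneg v.2.2.2
    have h3 := Complex.normSq_nonneg (o1 p v)
    have h4 := Complex.normSq_nonneg (o2 p v)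
    have hn := nn_pos p.1
    have h5 : 0 ≤ (Complex.normSq (o1 p v) + Complex.normSq (o2 p v)) / nn p.1 := by positivity
    by_contra hcon
    rw [not_lt] at hcon
    unfold gt4 at hcon
    have k1 : v.1 = 0 := Complex.normSq_eq_zero.mp (by linarith)
    have k2 : v.2.2.2 = 0 := Complex.normSq_eq_zero.mp (by linarith)
    have k3 : (Complex.normSq (o1 p v) + Complex.normSq (o2 p v)) / nn p.1 = 0 := by linarith
    rw [div_eq_zero_iff] at k3
    have k4 := k3.resolve_right hn.ne'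
    have k5 : o1 p v = 0 := Complex.normSq_eq_zero.mp (by linarith)
    have k6 : o2 p v = 0 := Complex.normSq_eq_zero.mp (by linarith)
    unfold o1 at k5
    unfold o2 at k6
    rw [k1, mul_zero, sub_zero] at k5 k6
    exact hv (Prod.ext k1 (Prod.ext k5 (Prod.ext k6 k2)))
  cont := gM_cont

theorem splitting_C4 (p v : C4) : ∃! w : Bs p × Bc p × Bu p, (w.1 : C4) + w.2.1 + w.2.2 = v := by
  refine ⟨(⟨(0, o1 p v, o2 p v, 0), rfl, rfl⟩, ⟨(v.1, A4 p * v.1, B4 p * v.1, 0), ?_, ?_, rfl⟩,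
    ⟨(0, 0, 0, v.2.2.2), rfl, by simp [o1], by simp [o2]⟩), ?_, ?_⟩
  · simp [o1]
  · simp [o2]
  · simp only []
    refine Prod.ext ?_ (Prod.ext ?_ (Prod.ext ?_ ?_)) <;> simp [o1, o2]
  · rintro ⟨⟨s, hs⟩, ⟨c, hc⟩, ⟨u, hu⟩⟩ h
    simp only at h
    obtain ⟨s1, s2⟩ := hs
    obtain ⟨c1, c2, c3⟩ := hc
    obtain ⟨u1, u2, u3⟩ := hu
    have hc1 : c.1 = v.1 := by
      rw [← h]
      simp [s1, u1]
    have hu4 : u.2.2.2 = v.2.2.2 := by
      rw [← h]
      simp [s2, c3]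
    have a1 : o1 p v = o1 p s := by
      rw [← h, o1_add, o1_add, c1, u2]
      ring
    have a2 : o2 p v = o2 p s := by
      rw [← h, o2_add, o2_add, c2, u3]
      ring
    have hs' : s = (0, o1 p v, o2 p v, 0) := by
      rw [a1, a2]
      refine Prod.ext s1 (Prod.ext ?_ (Prod.ext ?_ s2))
      · simp [o1, s1]
      · simp [o2, s1]
    have hu' : u = (0, 0, 0, v.2.2.2) := by
      unfold o1 at u2
      unfold o2 at u3
      rw [u1, mul_zero, sub_zero] at u2 u3
      exact Prod.ext u1 (Prod.ext u2 (Prod.ext u3 hu4))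
    have hc' : c = (v.1, A4 p * v.1, B4 p * v.1, 0) := by
      unfold o1 at c1
      unfold o2 at c2
      refine Prod.ext hc1 (Prod.ext ?_ (Prod.ext ?_ c3))
      · rw [← hc1]; linear_combination c1
      · rw [← hc1]; linear_combination c2
    subst hs' hu' hc'
    rfl

theorem gM_f (q : MM) (v : TangentSpace 𝓘(ℂ, C4) q) :
    gM (fM q) (mfderiv 𝓘(ℂ, C4) 𝓘(ℂ, C4) fM q v) =
      Complex.normSq (v : C4).1 + Complex.normSq mu *
      ((Complex.normSq (o1 (chartAt C4 q q) v) + Complex.normSq (o2 (chartAt C4 q q) v)) /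
        nn (chartAt C4 q q).1) + ep ^ 2 * Complex.normSq (v : C4).2.2.2 := by
  obtain ⟨j, hj, hn, hc⟩ := compat_f q
  have := gt_compat (m := mu) hc hj hn (by simp) (by simp) (by simp) v
  rw [Complex.normSq_ofReal, ← pow_two] at this
  exact this

theorem inv_sub (q : MM) :
    (EsM q).map (mfderiv 𝓘(ℂ, C4) 𝓘(ℂ, C4) fM q).toLinearMap = EsM (fM q) ∧
    (EcM q).map (mfderiv 𝓘(ℂ, C4) 𝓘(ℂ, C4) fM q).toLinearMap = EcM (fM q) ∧
    (EuM q).map (mfderiv 𝓘(ℂ, C4) 𝓘(ℂ, C4) fM q).toLinearMap = EuM (fM q) := by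
  obtain ⟨j, -, -, hc⟩ := compat_f q
  exact ⟨hc.map_Bs, hc.map_Bc, hc.map_Bu⟩

theorem ne_bot_M (q : MM) : EsM q ≠ ⊥ ∧ EcM q ≠ ⊥ ∧ EuM q ≠ ⊥ := by
  refine ⟨?_, ?_, ?_⟩
  · rw [Submodule.ne_bot_iff]
    refine ⟨fs 0 (chartAt C4 q q), ?_, (fs_li _).ne_zero 0⟩
    change _ ∈ Bs _
    rw [Bs_eq]
    exact Submodule.subset_span ⟨0, rfl⟩
  · rw [Submodule.ne_bot_iff]
    refine ⟨fc 0 (chartAt C4 q q), ?_, (fc_li _).ne_zero 0⟩
    change _ ∈ Bc _
    rw [Bc_eq]
    exact Submodule.subset_span ⟨0, rfl⟩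
  · rw [Submodule.ne_bot_iff]
    refine ⟨fu 0 (chartAt C4 q q), ?_, (fu_li _).ne_zero 0⟩
    change _ ∈ Bu _
    rw [Bu_eq]
    exact Submodule.subset_span ⟨0, rfl⟩

theorem cont_Es : IsContSub EsM :=
  cont_of_span (s := fs) (fun _ => rfl) Bs_eq (fun i => by
    fin_cases i <;> exact continuous_const) fs_li fun _ _ _ _ _ _ _ h => h.map_Bs

theorem cont_Eu : IsContSub EuM :=
  cont_of_span (s := fu) (fun _ => rfl) Bu_eq (fun i => by
    fin_cases i; exact continuous_const) fu_li fun _ _ _ _ _ _ _ h => h.map_Bu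

theorem cont_Ec : IsContSub EcM :=
  cont_of_span (s := fc) (fun _ => rfl) Bc_eq (fun i => by
    fin_cases i
    exact continuous_const.prodMk (A4_cont.prodMk (B4_cont.prodMk continuous_const))) fc_li
    fun _ _ _ _ _ _ _ h => h.map_Bc

theorem dominated_M (q : MM) (vs vc vu : TangentSpace 𝓘(ℂ, C4) q) (hs : vs ∈ EsM q)
    (hc : vc ∈ EcM q) (hu : vu ∈ EuM q) (g1 : gM q vs = 1) (g2 : gM q vc = 1)
    (g3 : gM q vu = 1) :
    gM (fM q) (mfderiv 𝓘(ℂ, C4) 𝓘(ℂ, C4) fM q vs) <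
      min 1 (gM (fM q) (mfderiv 𝓘(ℂ, C4) 𝓘(ℂ, C4) fM q vc)) ∧
    max 1 (gM (fM q) (mfderiv 𝓘(ℂ, C4) 𝓘(ℂ, C4) fM q vc)) <
      gM (fM q) (mfderiv 𝓘(ℂ, C4) 𝓘(ℂ, C4) fM q vu) := by
  rw [gM_f, gM_f, gM_f]
  obtain ⟨s1, s2⟩ := hs
  obtain ⟨c1, c2, c3⟩ := hc
  obtain ⟨u1, u2, u3⟩ := hu
  unfold gM gt4 at g1 g2 g3
  set p := chartAt C4 q q with hp
  have s1' : (vs : C4).1 = 0 := s1
  have s2' : (vs : C4).2.2.2 = 0 := s2
  have c1' : o1 p vc = 0 := c1
  have c2' : o2 p vc = 0 := c2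
  have c3' : (vc : C4).2.2.2 = 0 := c3
  have u1' : (vu : C4).1 = 0 := u1
  have u2' : o1 p vu = 0 := u2
  have u3' : o2 p vu = 0 := u3
  rw [s1', s2'] at g1
  rw [c1', c2', c3'] at g2
  rw [u1', u2', u3'] at g3
  simp only [map_zero, add_zero, zero_add, zero_div] at g1 g2 g3
  rw [s1', s2', c1', c2', c3', u1', u2', u3', g1, g3]
  simp only [map_zero, add_zero, zero_add, mul_zero, zero_div, mul_one]
  rw [g2, min_self, max_self]
  refine ⟨mu_normSq_lt, ?_⟩
  nlinarith [ep_gt]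

/-! ### the center bundle is not holomorphic -/

theorem not_hol_A {p : C4} (hw : deriv s0 p.1 * s1 p.1 - deriv s1 p.1 * s0 p.1 ≠ 0) :
    ¬ DifferentiableAt ℂ A4 p := by
  intro h
  have hd := h.hasFDerivAt
  set L := fderiv ℂ A4 p with hL
  set Wr := deriv s0 p.1 * s1 p.1 - deriv s1 p.1 * s0 p.1 with hWr
  have hn := nnC_ne p.1
  have hline : ∀ v : ℂ, HasDerivAt (fun t : ℝ => A4 (p.1, p.2.1, p.2.2.1 + t * v, p.2.2.2))
      (L (0, 0, v, 0)) 0 := by
    intro v
    have h1 : HasDerivAt (fun t : ℝ => ((p.1, p.2.1, p.2.2.1 + t * v, p.2.2.2) : C4))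
        (0, 0, v, 0) 0 := by
      refine (hasDerivAt_const _ _).prodMk ((hasDerivAt_const _ _).prodMk
        (HasDerivAt.prodMk ?_ (hasDerivAt_const _ _)))
      have : HasDerivAt (fun t : ℝ => (t : ℂ)) 1 0 := Complex.ofRealCLM.hasDerivAt
      simpa using (this.mul_const v).const_add p.2.2.1
    have h2 : HasFDerivAt A4 (L.restrictScalars ℝ)
        ((fun t : ℝ => ((p.1, p.2.1, p.2.2.1 + t * v, p.2.2.2) : C4)) 0) := by
      have e : ((fun t : ℝ => ((p.1, p.2.1, p.2.2.1 + t * v, p.2.2.2) : C4)) 0) = p := by simp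
      rw [e]
      exact hd.restrictScalars ℝ
    exact h2.comp_hasDerivAt 0 h1
  have hr : ∀ v : ℂ, HasDerivAt (fun t : ℝ => A4 (p.1, p.2.1, p.2.2.1 + t * v, p.2.2.2))
      (conj v * Wr / nn p.1) 0 := by
    intro v
    have e : (fun t : ℝ => A4 (p.1, p.2.1, p.2.2.1 + t * v, p.2.2.2)) =
        fun t : ℝ => A4 p + (t : ℂ) * (conj v * Wr / nn p.1) := by
      funext t
      unfold A4 W1 W2
      simp only [map_add, map_mul, Complex.conj_ofReal]
      field_simp
      rw [hWr]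
      ring
    rw [e]
    have : HasDerivAt (fun t : ℝ => (t : ℂ)) 1 0 := Complex.ofRealCLM.hasDerivAt
    simpa using (this.mul_const (conj v * Wr / nn p.1)).const_add (A4 p)
  have a1 : L (0, 0, 1, 0) = Wr / nn p.1 := by
    rw [(hline 1).unique (hr 1)]
    simp
  have a2 : L (0, 0, Complex.I, 0) = -Complex.I * Wr / nn p.1 := by
    rw [(hline Complex.I).unique (hr Complex.I)]
    simp
  have a3 : L (0, 0, Complex.I, 0) = Complex.I • L (0, 0, 1, 0) := by
    rw [← map_smul]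
    congr 1
    simp
  rw [a1, a2, smul_eq_mul] at a3
  have a4 : Complex.I * Wr = 0 := by
    have h5 : (-Complex.I * Wr) / nn p.1 = (Complex.I * Wr) / nn p.1 := by
      rw [a3, mul_div_assoc]
    have h6 := (div_left_inj' hn).mp h5
    linear_combination (-1 / 2 : ℂ) * h6
  exact hw ((mul_eq_zero.mp a4).resolve_left Complex.I_ne_zero)

theorem not_hol : ¬ IsHolSub EcM := by
  intro hol
  obtain ⟨z₀, hz₀⟩ := exists_wronskian
  set p₀ : (⊤ : Opens C4) := ⟨(z₀, 0, 0, 0), trivial⟩ with hp₀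
  set q₀ : MM := pr GM p₀ with hq₀
  obtain ⟨W, hW, hqW, k, V, hV, hspan⟩ := hol q₀
  set e := chartAt C4 q₀ with he
  set y₀ : C4 := e q₀ with hy₀
  have hy₀t : y₀ ∈ e.target := e.map_source (mem_chart_source C4 q₀)
  -- the Wronskian at `y₀`
  have hWr : deriv s0 y₀.1 * s1 y₀.1 - deriv s1 y₀.1 * s0 y₀.1 ≠ 0 := by
    obtain ⟨γ, hγ, h⟩ := pr_eq_iff.1 (pr_chart_self q₀).symm
    obtain ⟨⟨l, κ⟩, hl, rfl⟩ := hγ
    obtain ⟨ee, hee, hee0, hs⟩ := LB_le (AddSubgroup.mem_prod.mp hl).1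
    have h1 : Ps (Ps.symm (p₀ : C4) + (l, κ)) = y₀ := congrArg Subtype.val h
    have h2 : y₀.1 = z₀ + l := by
      rw [← h1, Ps_apply, Ps_symm_apply]; rfl
    have d0 := deriv_shift s0_diff hee (fun z => (hs z).1) z₀
    have d1 := deriv_shift s1_diff hee (fun z => (hs z).2) z₀
    rw [h2, d0, d1, (hs z₀).1, (hs z₀).2]
    have h3 : (deriv ee z₀ * s0 z₀ + ee z₀ * deriv s0 z₀) * (ee z₀ * s1 z₀) -
        (deriv ee z₀ * s1 z₀ + ee z₀ * deriv s1 z₀) * (ee z₀ * s0 z₀) =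
        ee z₀ ^ 2 * (deriv s0 z₀ * s1 z₀ - deriv s1 z₀ * s0 z₀) := by ring
    rw [h3]
    exact mul_ne_zero (pow_ne_zero 2 (hee0 _)) hz₀
  -- the vector fields in the chart `e`
  set h : Fin k → MM → C4 := fun i q => tangentCoordChange 𝓘(ℂ, C4) q q₀ q (V i q) with hh
  have hdiff : ∀ i, DifferentiableAt ℂ (fun y => h i (e.symm y)) y₀ := by
    intro i
    have h1 : MDifferentiableAt 𝓘(ℂ, C4) 𝓘(ℂ, C4).tangent
        (fun x => (⟨x, V i x⟩ : TangentBundle 𝓘(ℂ, C4) MM)) q₀ :=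
      (hV i q₀ hqW).mdifferentiableAt (hW.mem_nhds hqW)
    have h2 := (mdifferentiableAt_totalSpace _ _).1 h1
    have h3 : MDifferentiableAt 𝓘(ℂ, C4) 𝓘(ℂ, C4) (h i) q₀ := h2.2
    have h4 : MDifferentiableAt 𝓘(ℂ, C4) 𝓘(ℂ, C4) e.symm y₀ :=
      (mdifferentiableAt_atlas_symm (chart_mem_atlas C4 q₀) hy₀t)
    have h5 : e.symm y₀ = q₀ := e.left_inv (mem_chart_source C4 q₀)
    have h6 : MDifferentiableAt 𝓘(ℂ, C4) 𝓘(ℂ, C4) (h i) (e.symm y₀) := by rw [h5]; exact h3
    exact (mdifferentiableAt_iff_differentiableAt).1 (h6.comp y₀ h4)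
  -- they lie in the center direction
  have hmem : ∀ᶠ y in 𝓝 y₀, ∀ i, h i (e.symm y) ∈ Bc y := by
    have h1 : ∀ᶠ y in 𝓝 y₀, e.symm y ∈ W := by
      apply (e.continuousAt_symm hy₀t).eventually_mem
      rw [e.left_inv (mem_chart_source C4 q₀)]
      exact hW.mem_nhds hqW
    filter_upwards [h1, e.open_target.mem_nhds hy₀t] with y hyW hyt i
    have hys : e.symm y ∈ e.source := e.map_target hyt
    obtain ⟨γ, hγ, g1, g2⟩ := tangentCoordChange_eq (mem_chart_source C4 (e.symm y)) hys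
    obtain ⟨j, -, -, hc⟩ := compat_deck hγ (chartAt C4 (e.symm y) (e.symm y))
    have g3 : V i (e.symm y) ∈ EcM (e.symm y) := by
      rw [hspan _ hyW]
      exact Submodule.subset_span ⟨i, rfl⟩
    have g4 : (V i (e.symm y) : C4) ∈ Bc (chartAt C4 (e.symm y) (e.symm y)) := g3
    have g5 := hc.map_Bc
    rw [g1, e.right_inv hyt] at g5
    rw [← g5, hh]
    simp only
    rw [g2]
    exact Submodule.mem_map_of_mem g4
  -- one of them does not vanish at `q₀`
  obtain ⟨i, hi⟩ : ∃ i, h i q₀ ≠ 0 := by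
    by_contra hcon
    push Not at hcon
    have g1 : ∀ i, V i q₀ = 0 := by
      intro i
      exact (tangentCoordChange_self (I := 𝓘(ℂ, C4)) (mem_extChartAt_source q₀)
        (v := V i q₀)).symm.trans (hcon i)
    have g2 : EcM q₀ = ⊥ := by
      rw [hspan _ hqW, Submodule.span_eq_bot]
      rintro _ ⟨i, rfl⟩
      exact g1 i
    exact (ne_bot_M q₀).2.1 g2
  set u : C4 → C4 := fun y => h i (e.symm y) with hu
  have hu0 : u y₀ ≠ 0 := by
    rw [hu]
    simp only
    rw [e.left_inv (mem_chart_source C4 q₀)]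
    exact hi
  have hform : ∀ᶠ y in 𝓝 y₀, (u y).2.1 = A4 y * (u y).1 ∧ (u y).2.2.1 = B4 y * (u y).1 ∧
      (u y).2.2.2 = 0 := by
    filter_upwards [hmem] with y hy
    obtain ⟨c1, c2, c3⟩ := mem_Bc.mp (hy i)
    unfold o1 at c1
    unfold o2 at c2
    exact ⟨by linear_combination c1, by linear_combination c2, c3⟩
  have hfst : (u y₀).1 ≠ 0 := by
    intro h0
    obtain ⟨c1, c2, c3⟩ := hform.self_of_nhds
    rw [h0, mul_zero] at c1 c2
    exact hu0 (Prod.ext h0 (Prod.ext c1 (Prod.ext c2 c3)))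
  have hud : DifferentiableAt ℂ u y₀ := hdiff i
  have hu1 : DifferentiableAt ℂ (fun y => (u y).1) y₀ := hud.fst
  have hu2 : DifferentiableAt ℂ (fun y => (u y).2.1) y₀ := hud.snd.fst
  have hquot : DifferentiableAt ℂ (fun y => (u y).2.1 / (u y).1) y₀ :=
    by simpa only [div_eq_mul_inv] using hu2.fun_mul (hu1.fun_inv hfst)
  apply not_hol_A hWr
  refine hquot.congr_of_eventuallyEq ?_
  filter_upwards [hform, hu1.continuousAt.eventually_ne hfst] with y hy hy1
  rw [hy.1]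
  field_simp

end Pool.Agent.X104.CB
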